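import Pool.Agent.H90.ST.Level
import Pool.Graph.R_pool_sql_team_seeded_3997aac3.Q255.SG.TK2

/-! # The exceptional set has dimension zero -/

set_option autoImplicit false

namespace Pool.Agent.H90.ST

open Finset Filter Topology Pool.Agent.Helper112
open scoped ENNReal

/-- the real numbers `x` with large exponential sums at arbitrarily large scales -/
def Ebad (b : ℕ → ℂ) (ε : ℝ) : Set ℝ :=
  {x | ∃ᶠ N : ℕ in atTop, ε * ((N : ℝ) / Real.log N) ≤ ‖TT N b x‖}

theorem ee_add_int (x : ℝ) (k : ℤ) : ee (x + k) = ee x := by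
  rw [ls_ee_add, ls_ee_int, mul_one]

theorem TT_add_int (N : ℕ) (b : ℕ → ℂ) (x : ℝ) (k : ℤ) : TT N b (x + k) = TT N b x := by
  unfold TT
  apply sum_congr rfl
  intro n _
  have : (n : ℝ) * (x + k) = n * x + ((n * k : ℤ) : ℝ) := by push_cast; ring
  rw [this, ee_add_int]

theorem dim_unit (b : ℕ → ℂ) (hb : ∀ n, ¬ n.Prime → b n = 0) (hb1 : ∀ n, ‖b n‖ ≤ 1) {ε : ℝ}
    (hε : 0 < ε) {D : ℝ} (hD : 0 < D) : dimH (Ebad b ε ∩ Set.Ico 0 1) ≤ ENNReal.ofReal D := by
  classical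
  obtain ⟨t, i₀, hgrid⟩ := grid hε
  obtain ⟨B, hB⟩ := few_cells (show 0 < ε / 4 by positivity)
  set NN : ℕ → ℕ → ℕ := fun i j => 2 ^ (i + 1) + j * 2 ^ (i + 1 - t) with hNN
  have hNN2 : ∀ i j, 2 ^ (i + 1) ≤ NN i j := fun i j => by simp only [hNN]; omega
  have h22 : ∀ i : ℕ, 2 ≤ 2 ^ (i + 1) := fun i => by
    rw [pow_succ]; have := Nat.one_le_two_pow (n := i); omega
  set S : ℕ → Finset (Σ _ : ℕ, ℕ) := fun i => (range (2 ^ t)).sigma (fun j => cells (NN i j) b (ε / 4)) with hS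
  have hScard : ∀ i, ((S i).card : ℝ) ≤ 2 ^ t * B := by
    intro i
    have : (S i).card ≤ 2 ^ t * B := by
      simp only [hS]
      rw [card_sigma]
      calc ∑ j ∈ range (2 ^ t), (cells (NN i j) b (ε / 4)).card ≤ ∑ j ∈ range (2 ^ t), B :=
            sum_le_sum fun j _ => hB _ ((h22 i).trans (hNN2 i j)) b hb hb1
        _ = _ := by rw [sum_const, card_range, smul_eq_mul]
    exact_mod_cast this
  set ι : Type := Σ i : ℕ, {y : Σ _ : ℕ, ℕ // y ∈ S i} with hι
  set U : ι → Set ℝ := fun z => Set.Icc ((z.2.1.2 : ℝ) / (NN z.1 z.2.1.1 : ℕ))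
    (((z.2.1.2 : ℝ) + 1) / (NN z.1 z.2.1.1 : ℕ)) with hU
  set d : ι → ℝ := fun z => (1 / 2) ^ z.1 with hd
  have hcnt : Countable ι := by rw [hι]; infer_instance
  have hdU : ∀ z : ι, Metric.ediam (U z) ≤ ENNReal.ofReal (d z) := by
    intro z
    simp only [hU, hd]
    rw [Real.ediam_Icc]
    apply ENNReal.ofReal_le_ofReal
    rw [← sub_div, add_sub_cancel_left, one_div, one_div, inv_pow]
    apply inv_anti₀ (by positivity)
    have : 2 ^ z.1 ≤ NN z.1 z.2.1.1 := le_trans (by rw [pow_succ]; omega) (hNN2 _ _)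
    exact_mod_cast this
  have hsum : Summable fun z : ι => d z ^ D := by
    simp only [hd]
    rw [summable_sigma_of_nonneg (fun z => by positivity)]
    refine ⟨fun i => (hasSum_fintype _).summable, ?_⟩
    have hr : ((1 / 2 : ℝ) ^ D) < 1 := Real.rpow_lt_one (by norm_num) (by norm_num) hD
    have hg := (summable_geometric_of_lt_one (by positivity) hr).mul_left ((2 : ℝ) ^ t * B)
    refine Summable.of_nonneg_of_le (fun i => tsum_nonneg fun _ => by positivity) (fun i => ?_) hg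
    have e : ((1 / 2 : ℝ) ^ i) ^ D = ((1 / 2 : ℝ) ^ D) ^ i := by
      rw [← Real.rpow_natCast, ← Real.rpow_natCast, ← Real.rpow_mul (by norm_num),
        ← Real.rpow_mul (by norm_num), mul_comm]
    have e2 : ∑' y : {y : Σ _ : ℕ, ℕ // y ∈ S i}, ((1 / 2 : ℝ) ^ (⟨i, y⟩ : ι).1) ^ D =
        ((S i).card : ℝ) * ((1 / 2 : ℝ) ^ i) ^ D := by
      rw [tsum_fintype]
      show ∑ _y : {y : Σ _ : ℕ, ℕ // y ∈ S i}, ((1 / 2 : ℝ) ^ i) ^ D = _
      rw [sum_const, card_univ, Fintype.card_coe, nsmul_eq_mul]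
    rw [e2, e]
    exact mul_le_mul_of_nonneg_right (hScard i) (by positivity)
  have hmain := Pool.Agent.R479.DA.dimH_limsup U d (fun z => by simp only [hd]; positivity) hdU hD hsum
  refine le_trans (dimH_mono ?_) hmain
  rintro x ⟨hx, hx0, hx1⟩
  have hinf : ∀ n : ℕ, ∃ z : ι, n ≤ z.1 ∧ x ∈ U z := by
    intro n
    have hx' : ∃ᶠ N : ℕ in atTop, ε * ((N : ℝ) / Real.log N) ≤ ‖TT N b x‖ := hx
    obtain ⟨N, hN1, hN2⟩ := (hx'.and_eventually (eventually_ge_atTop (2 ^ (max (n + 1) i₀)))).exists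
    set i := Nat.log 2 N with hi
    have hN0 : N ≠ 0 := by
      have := Nat.one_le_two_pow (n := max (n + 1) i₀)
      omega
    have h1 : 2 ^ i ≤ N := Nat.pow_log_le_self 2 hN0
    have h2 : N < 2 ^ (i + 1) := Nat.lt_pow_succ_log_self (by norm_num) N
    have h3 : max (n + 1) i₀ ≤ i := Nat.le_log_of_pow_le (by norm_num) hN2
    obtain ⟨j, hj, hbig⟩ := hgrid b hb hb1 i N ((le_max_right _ _).trans h3) h1 h2 x hN1
    have hni : n + 1 ≤ i := (le_max_left _ _).trans h3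
    obtain ⟨i', hi'⟩ : ∃ i', i = i' + 1 := ⟨i - 1, by omega⟩
    rw [hi'] at hbig hni
    have hNNpos : (0 : ℝ) < (NN i' j : ℕ) := by
      have := (h22 i').trans (hNN2 i' j)
      exact_mod_cast (by omega : 0 < NN i' j)
    have hfl : (⌊x * (NN i' j : ℕ)⌋₊ : ℝ) ≤ x * (NN i' j : ℕ) := Nat.floor_le (by positivity)
    have hfl2 : x * (NN i' j : ℕ) < (⌊x * (NN i' j : ℕ)⌋₊ : ℝ) + 1 := Nat.lt_floor_add_one _
    have hcell : ⌊x * (NN i' j : ℕ)⌋₊ ∈ cells (NN i' j) b (ε / 4) := by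
      unfold cells
      rw [mem_filter, mem_range]
      refine ⟨?_, x, ?_, ?_, hbig⟩
      · have : (⌊x * (NN i' j : ℕ)⌋₊ : ℝ) < (NN i' j : ℕ) := by nlinarith
        exact_mod_cast this
      · rw [div_le_iff₀ hNNpos]; exact hfl
      · rw [lt_div_iff₀ hNNpos]; exact hfl2
    refine ⟨⟨i', ⟨⟨j, ⌊x * (NN i' j : ℕ)⌋₊⟩, ?_⟩⟩, by show n ≤ i'; omega, ?_⟩
    · simp only [hS]
      rw [mem_sigma, mem_range]
      exact ⟨hj, hcell⟩
    · simp only [hU]
      rw [Set.mem_Icc, div_le_iff₀ hNNpos, le_div_iff₀ hNNpos]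
      exact ⟨hfl, hfl2.le⟩
  show {z | x ∈ U z}.Infinite
  intro hfin
  obtain ⟨M, hM⟩ := (hfin.image (fun z : ι => z.1)).bddAbove
  obtain ⟨z, hz1, hz2⟩ := hinf (M + 1)
  have := hM ⟨z, hz2, rfl⟩
  simp only at this
  omega

theorem dim_Ebad (b : ℕ → ℂ) (hb : ∀ n, ¬ n.Prime → b n = 0) (hb1 : ∀ n, ‖b n‖ ≤ 1) {ε : ℝ}
    (hε : 0 < ε) : dimH (Ebad b ε) = 0 := by
  have h1 : dimH (Ebad b ε ∩ Set.Ico 0 1) = 0 := by
    apply le_antisymm _ bot_le
    apply le_of_forall_gt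
    intro c hc
    rcases eq_or_ne c ⊤ with h | h
    · exact (dim_unit b hb hb1 hε one_pos).trans_lt (by rw [h]; exact ENNReal.ofReal_lt_top)
    · have hc' : 0 < c.toReal := ENNReal.toReal_pos hc.ne' h
      refine (dim_unit b hb hb1 hε (half_pos hc')).trans_lt ?_
      conv_rhs => rw [← ENNReal.ofReal_toReal h]
      exact (ENNReal.ofReal_lt_ofReal_iff hc').2 (half_lt_self hc')
  have h2 : Ebad b ε ⊆ ⋃ k : ℤ, (fun x : ℝ => x + k) '' (Ebad b ε ∩ Set.Ico 0 1) := by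
    intro x hx
    rw [Set.mem_iUnion]
    refine ⟨⌊x⌋, Int.fract x, ⟨?_, Int.fract_nonneg x, Int.fract_lt_one x⟩, Int.fract_add_floor x⟩
    show ∃ᶠ N : ℕ in atTop, ε * ((N : ℝ) / Real.log N) ≤ ‖TT N b (Int.fract x)‖
    have hx' : ∃ᶠ N : ℕ in atTop, ε * ((N : ℝ) / Real.log N) ≤ ‖TT N b x‖ := hx
    refine hx'.mono fun N hN => ?_
    have : TT N b (Int.fract x) = TT N b x := by
      conv_rhs => rw [← Int.fract_add_floor x]
      rw [TT_add_int]
    rw [this]
    exact hN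
  apply le_antisymm _ bot_le
  refine (dimH_mono h2).trans ?_
  rw [dimH_iUnion]
  apply iSup_le
  intro k
  have h3 : LipschitzWith 1 (fun x : ℝ => x + k) := by
    apply LipschitzWith.of_dist_le_mul
    intro x y
    simp [Real.dist_eq]
  exact (h3.dimH_image_le _).trans h1.le

/-- the real numbers `x` such that the means of `b(p) e(p x)` over the primes do not tend to zero -/
def badSet (b : ℕ → ℂ) : Set ℝ :=
  {x | ¬ Tendsto (fun N : ℕ => (∑ p ∈ Nat.primesBelow N, b p * ee (p * x)) /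
    ((Nat.primesBelow N).card : ℂ)) atTop (𝓝 0)}

theorem badSet_sub (b : ℕ → ℂ) {D : ℝ} (hD : 0 < D) : badSet b ⊆
    ⋃ m : ℕ, Ebad (fun n => if n.Prime then b n / D else 0) (1 / ((m : ℝ) + 1)) := by
  intro x hx
  by_contra hcon
  apply hx
  rw [Set.mem_iUnion, not_exists] at hcon
  rw [tendsto_zero_iff_norm_tendsto_zero, Metric.tendsto_atTop]
  intro ε hε
  obtain ⟨m, hm⟩ := exists_nat_one_div_lt (show 0 < ε / (4 * D) by positivity)
  have h1 := hcon m
  unfold Ebad at h1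
  rw [Set.mem_ofPred_eq, not_frequently] at h1
  have h2 := Pool.Agent.Q255.SG.card_log_tendsto.eventually (lt_mem_nhds (show (1 / 2 : ℝ) < 1 by norm_num))
  have h3 := (h2.and (eventually_ge_atTop 3)).and ((tendsto_sub_atTop_nat 1).eventually h1)
  rw [eventually_atTop] at h3
  obtain ⟨N₀, hN₀⟩ := h3
  refine ⟨N₀, fun N hN => ?_⟩
  obtain ⟨⟨k1, k2⟩, k3⟩ := hN₀ N hN
  rw [Real.dist_eq, sub_zero, abs_of_nonneg (norm_nonneg _)]
  have hN0 : (0 : ℝ) < N := by exact_mod_cast (by omega : 0 < N)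
  have hlN : 0 < Real.log N := Real.log_pos (by exact_mod_cast (by omega : 1 < N))
  have hpi : (N : ℝ) / (2 * Real.log N) < ((Nat.primesBelow N).card : ℝ) := by
    rw [lt_div_iff₀ hN0] at k1
    rw [div_lt_iff₀ (by positivity)]
    linarith
  have hsum : ∑ p ∈ Nat.primesBelow N, b p * ee (p * x) =
      D * TT (N - 1) (fun n => if n.Prime then b n / D else 0) x := by
    unfold TT
    rw [mul_sum, Nat.primesBelow, sum_filter]
    have : ∑ n ∈ range N, (if n.Prime then b n * ee (n * x) else 0) =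
        ∑ n ∈ Icc 1 (N - 1), (if n.Prime then b n * ee (n * x) else 0) := by
      apply (sum_subset _ _).symm
      · intro n hn
        rw [mem_Icc] at hn
        rw [mem_range]
        omega
      · intro n hn1 hn2
        rw [mem_range] at hn1
        rw [mem_Icc] at hn2
        have : n = 0 := by omega
        rw [this, if_neg Nat.not_prime_zero]
    rw [this]
    apply sum_congr rfl
    intro n _
    have hDc : (D : ℂ) ≠ 0 := by exact_mod_cast hD.ne'
    show (if n.Prime then b n * ee (n * x) else 0) =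
      (D : ℂ) * ((if n.Prime then b n / D else 0) * ee (n * x))
    by_cases h : n.Prime
    · rw [if_pos h, if_pos h]
      field_simp
    · rw [if_neg h, if_neg h]
      ring
  rw [hsum, norm_div, norm_mul, Complex.norm_real, Real.norm_of_nonneg hD.le, Complex.norm_natCast]
  rw [not_le] at k3
  have hN1 : (2 : ℕ) ≤ N - 1 := by omega
  have hN1' : (0 : ℝ) < ((N - 1 : ℕ) : ℝ) := by exact_mod_cast (by omega : 0 < N - 1)
  have hlN1 : 0 < Real.log ((N - 1 : ℕ) : ℝ) := Real.log_pos (by exact_mod_cast (by omega : 1 < N - 1))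
  have hcmp : ((N - 1 : ℕ) : ℝ) / Real.log ((N - 1 : ℕ) : ℝ) ≤ 2 * (N / Real.log N) := by
    have a1 : ((N - 1 : ℕ) : ℝ) ≤ N := by exact_mod_cast Nat.sub_le N 1
    have a2 : Real.log N ≤ 2 * Real.log ((N - 1 : ℕ) : ℝ) := by
      have a3 : (N : ℝ) ≤ ((N - 1 : ℕ) : ℝ) ^ 2 := by
        have : N ≤ (N - 1) ^ 2 := by
          obtain ⟨k, rfl⟩ : ∃ k, N = k + 3 := ⟨N - 3, by omega⟩
          have : k + 3 - 1 = k + 2 := by omega
          rw [this]
          nlinarith
        exact_mod_cast this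
      calc Real.log N ≤ Real.log (((N - 1 : ℕ) : ℝ) ^ 2) := Real.log_le_log hN0 a3
        _ = _ := by rw [Real.log_pow]; norm_num
    rw [← mul_div_assoc, div_le_div_iff₀ hlN1 hlN]
    nlinarith
  have hpi0 : 0 < ((Nat.primesBelow N).card : ℝ) := lt_trans (by positivity) hpi
  rw [div_lt_iff₀ hpi0]
  calc D * ‖TT (N - 1) (fun n => if n.Prime then b n / D else 0) x‖
      ≤ D * (1 / ((m : ℝ) + 1) * (((N - 1 : ℕ) : ℝ) / Real.log ((N - 1 : ℕ) : ℝ))) :=
        mul_le_mul_of_nonneg_left k3.le hD.le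
    _ ≤ D * (ε / (4 * D) * (2 * (N / Real.log N))) := by
        apply mul_le_mul_of_nonneg_left _ hD.le
        exact mul_le_mul hm.le hcmp (by positivity) (by positivity)
    _ = ε * (N / (2 * Real.log N)) := by field_simp; ring
    _ < ε * ((Nat.primesBelow N).card : ℝ) := mul_lt_mul_of_pos_left hpi hε

/-- **Dimension zero.** -/
theorem dimH_badSet (b : ℕ → ℂ) (D : ℝ) (hb : ∀ p, ‖b p‖ ≤ D) : dimH (badSet b) = 0 := by
  have hD : 0 < D + 1 := by
    have := (norm_nonneg _).trans (hb 0)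
    linarith
  apply le_antisymm _ bot_le
  refine (dimH_mono (badSet_sub b hD)).trans ?_
  rw [dimH_iUnion]
  apply iSup_le
  intro m
  apply le_of_eq
  apply dim_Ebad
  · intro n hn
    exact if_neg hn
  · intro n
    show ‖(if n.Prime then b n / ((D + 1 : ℝ) : ℂ) else 0)‖ ≤ 1
    split_ifs
    · rw [norm_div, Complex.norm_real, Real.norm_of_nonneg hD.le, div_le_one hD]
      linarith [hb n]
    · simp
  · positivity

end Pool.Agent.H90.ST
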