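import Pool.Agent.H90.ST.Rot

/-! # Rotations: subsets of the circle with boundary of measure zero, Beatty sequences -/

set_option autoImplicit false

namespace Pool.Agent.H90.ST

open Finset Filter Topology Pool.Agent.Helper112 NumberField IsDedekindDomain
  Pool.Agent.H921R2.TatePole Pool.Agent.Q255.SG Q282.ST Pool.Agent.W350.EdgeV MeasureTheory
open scoped ENNReal

variable {K : Type} [Field K] [NumberField K] {n g : ℕ}

/-- a continuous majorant -/
theorem majorant (A : Set UnitAddCircle) {ε : ℝ} (hε : 0 < ε) :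
    ∃ f : C(UnitAddCircle, ℝ), (∀ y, 0 ≤ f y) ∧ (∀ y ∈ A, f y = 1) ∧
      ∫ y, f y ≤ (volume (closure A)).toReal + ε := by
  have hne : volume (closure A) ≠ ∞ := measure_ne_top _ _
  obtain ⟨U, hU1, hU2, hU3⟩ := (closure A).exists_isOpen_lt_add hne
    (show ENNReal.ofReal ε ≠ 0 by rw [Ne, ENNReal.ofReal_eq_zero, not_le]; exact hε)
  obtain ⟨f, hf0, hf1, hf⟩ := exists_continuous_zero_one_of_isClosed (s := Uᶜ) (t := closure A)
    hU2.isClosed_compl isClosed_closure (by
      rw [Set.disjoint_left]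
      intro y hy1 hy2
      exact hy1 (hU1 hy2))
  refine ⟨f, fun y => (hf y).1, fun y hy => hf1 (subset_closure hy), ?_⟩
  have h1 : ∫ y, f y ≤ ∫ y, U.indicator (fun _ => (1 : ℝ)) y := by
    apply integral_mono
    · exact f.continuous.integrable_of_hasCompactSupport (HasCompactSupport.of_compactSpace _)
    · exact (integrable_const (1 : ℝ)).indicator hU2.measurableSet
    · intro y
      by_cases hy : y ∈ U
      · rw [Set.indicator_of_mem hy]; exact (hf y).2
      · rw [Set.indicator_of_notMem hy]; exact (hf0 hy).le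
  rw [integral_indicator hU2.measurableSet, setIntegral_const, smul_eq_mul, mul_one] at h1
  refine h1.trans ?_
  rw [measureReal_def]
  have h2 : volume U ≤ volume (closure A) + ENNReal.ofReal ε := hU3.le
  have h3 := ENNReal.toReal_mono (by simp) h2
  rwa [ENNReal.toReal_add hne ENNReal.ofReal_ne_top, ENNReal.toReal_ofReal hε.le] at h3

theorem vol_closure {A : Set UnitAddCircle} (hA : volume (frontier A) = 0) :
    (volume (closure A)).toReal = (volume A).toReal ∧
      (volume (closure Aᶜ)).toReal = 1 - (volume A).toReal := by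
  have h1 : volume (closure A) ≤ volume (interior A) := by
    rw [closure_eq_interior_union_frontier]
    refine (measure_union_le _ _).trans ?_
    rw [hA, add_zero]
  have h2 : volume A ≤ volume (closure A) := measure_mono subset_closure
  have h3 : volume (interior A) ≤ volume A := measure_mono interior_subset
  have h4 : volume (closure A) = volume A := le_antisymm (h1.trans h3) h2
  have h5 : volume (interior A) = volume A := le_antisymm h3 (h4 ▸ h1)
  refine ⟨by rw [h4], ?_⟩
  rw [closure_compl, measure_compl isOpen_interior.measurableSet (measure_ne_top _ _),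
    UnitAddCircle.measure_univ, h5, ENNReal.toReal_sub_of_le _ ENNReal.one_ne_top, ENNReal.toReal_one]
  rw [← UnitAddCircle.measure_univ]
  exact measure_mono (Set.subset_univ _)

/-- complexification -/
noncomputable def cpl (f : C(UnitAddCircle, ℝ)) : C(UnitAddCircle, ℂ) :=
  ⟨fun y => ((f y : ℝ) : ℂ), Complex.continuous_ofReal.comp f.continuous⟩

theorem integral_cpl (f : C(UnitAddCircle, ℝ)) : ∫ y, cpl f y = ((∫ y, f y : ℝ) : ℂ) :=
  integral_ofReal

/-- **Subsets with boundary of measure zero.** -/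
theorem jordan {w : HeightOneSpectrum (𝓞 K) → ℂ} {W : ℝ} (hw : ∀ v, ‖w v‖ ≤ W) (α : ℝ)
    (h : ∀ G : C(UnitAddCircle, ℂ),
      Tendsto (fun x : ℕ => LC w α G x / (((VF K x).card : ℝ) : ℂ)) atTop (𝓝 0))
    (h1 : ∀ G : C(UnitAddCircle, ℂ), Tendsto (fun x : ℕ =>
      LC (K := K) (fun _ => 1) α G x / (((VF K x).card : ℝ) : ℂ)) atTop (𝓝 0))
    {A : Set UnitAddCircle} (hA : volume (frontier A) = 0) :
    Tendsto (fun x : ℕ => (∑ v ∈ VF K x, w v * (A.indicator (fun _ => (1 : ℂ))
      ((nm v * α : ℝ) : UnitAddCircle) - ((volume A).toReal : ℂ))) / (((VF K x).card : ℝ) : ℂ))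
      atTop (𝓝 0) := by
  classical
  rw [Metric.tendsto_atTop]
  intro ε hε
  have hW : 0 ≤ |W| := abs_nonneg _
  have hw' : ∀ v, ‖w v‖ ≤ |W| := fun v => (hw v).trans (le_abs_self _)
  set δ : ℝ := ε / (8 * (|W| + 1)) with hδ
  have hδ0 : 0 < δ := by positivity
  obtain ⟨f, hf0, hf1, hf2⟩ := majorant A hδ0
  obtain ⟨f', hf0', hf1', hf2'⟩ := majorant Aᶜ hδ0
  obtain ⟨e1, e2⟩ := vol_closure hA
  rw [e1] at hf2
  rw [e2] at hf2'
  set s : ℝ := (volume A).toReal with hs
  -- pointwise bound
  have hpt : ∀ y : UnitAddCircle, ‖A.indicator (fun _ => (1 : ℂ)) y - cpl f y‖ ≤ f y + f' y - 1 := by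
    intro y
    have a1 : cpl f y = ((f y : ℝ) : ℂ) := rfl
    rw [a1]
    by_cases hy : y ∈ A
    · rw [Set.indicator_of_mem hy, hf1 y hy]
      simp only [Complex.ofReal_one, sub_self, norm_zero]
      linarith [hf0' y]
    · rw [Set.indicator_of_notMem hy, zero_sub, norm_neg, Complex.norm_real,
        Real.norm_of_nonneg (hf0 y), hf1' y hy]
      linarith
  have hfi : Integrable (fun y => f y) (volume : Measure UnitAddCircle) :=
    f.continuous.integrable_of_hasCompactSupport (HasCompactSupport.of_compactSpace _)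
  have hfi' : Integrable (fun y => f' y) (volume : Measure UnitAddCircle) :=
    f'.continuous.integrable_of_hasCompactSupport (HasCompactSupport.of_compactSpace _)
  have hsf : s ≤ ∫ y, f y := by
    have k1 : (volume (closure A)).toReal ≤ ∫ y, f y := by
      have k2 : ∫ y, (closure A).indicator (fun _ => (1 : ℝ)) y ≤ ∫ y, f y := by
        apply integral_mono _ hfi
        · intro y
          by_cases hy : y ∈ closure A
          · rw [Set.indicator_of_mem hy]
            have : f y = 1 := by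
              have hcl : closure A ⊆ {z | f z = 1} :=
                closure_minimal (fun z hz => hf1 z hz) (isClosed_eq f.continuous continuous_const)
              exact hcl hy
            exact this.ge
          · rw [Set.indicator_of_notMem hy]; exact hf0 y
        · exact (integrable_const (1 : ℝ)).indicator isClosed_closure.measurableSet
      rwa [integral_indicator isClosed_closure.measurableSet, setIntegral_const, smul_eq_mul, mul_one,
        measureReal_def] at k2
    rwa [e1] at k1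
  have hG := (Metric.tendsto_nhds.1 (h (cpl f)) (ε / 8) (by positivity))
  have hG1 := (Metric.tendsto_nhds.1 (h1 (cpl (f + f'))) δ hδ0)
  have hVF : Tendsto (fun x : ℕ => ((VF K x).card : ℝ)) atTop atTop :=
    Pool.Agent.Q255.SG.GK.card_VF_tendsto
  obtain ⟨N, hN⟩ := eventually_atTop.1 ((hG.and hG1).and (hVF.eventually_gt_atTop 0))
  refine ⟨N, fun x hx => ?_⟩
  obtain ⟨⟨g1, g2⟩, g3⟩ := hN x hx
  rw [dist_zero_right, norm_div, Complex.norm_real, Real.norm_of_nonneg g3.le, div_lt_iff₀ g3] at g1 g2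
  rw [dist_zero_right, norm_div, Complex.norm_real, Real.norm_of_nonneg g3.le, div_lt_iff₀ g3]
  set c : ℝ := ((VF K x).card : ℝ) with hc
  -- the sum of the majorant
  have k1 : ∑ v ∈ VF K x, (f ((nm v * α : ℝ) : UnitAddCircle) + f' ((nm v * α : ℝ) : UnitAddCircle) - 1) ≤
      3 * δ * c := by
    have k2 : LC (K := K) (fun _ => 1) α (cpl (f + f')) x = ((∑ v ∈ VF K x,
        (f ((nm v * α : ℝ) : UnitAddCircle) + f' ((nm v * α : ℝ) : UnitAddCircle) -
          ((∫ y, f y) + (∫ y, f' y))) : ℝ) : ℂ) := by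
      unfold LC
      rw [integral_cpl]
      have : ∫ y, (f + f') y = (∫ y, f y) + (∫ y, f' y) := by
        simp only [ContinuousMap.add_apply]
        exact integral_add hfi hfi'
      rw [this]
      push_cast
      refine sum_congr rfl fun v _ => ?_
      have : cpl (f + f') ((nm v * α : ℝ) : UnitAddCircle) =
        (((f ((nm v * α : ℝ) : UnitAddCircle) + f' ((nm v * α : ℝ) : UnitAddCircle) : ℝ)) : ℂ) := rfl
      rw [this, one_mul]
      push_cast
      rfl
    rw [k2, Complex.norm_real] at g2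
    have k3 := (le_abs_self _).trans g2.le
    have k4 : ∑ v ∈ VF K x, (f ((nm v * α : ℝ) : UnitAddCircle) + f' ((nm v * α : ℝ) : UnitAddCircle) - 1) =
        ∑ v ∈ VF K x, (f ((nm v * α : ℝ) : UnitAddCircle) + f' ((nm v * α : ℝ) : UnitAddCircle) -
          ((∫ y, f y) + (∫ y, f' y))) + c * (((∫ y, f y) + (∫ y, f' y)) - 1) := by
      rw [hc, ← nsmul_eq_mul, ← sum_const, ← sum_add_distrib]
      refine sum_congr rfl fun v _ => ?_
      ring
    rw [k4]
    have k5 : ((∫ y, f y) + (∫ y, f' y)) - 1 ≤ 2 * δ := by linarith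
    have k6 := mul_le_mul_of_nonneg_left k5 g3.le
    linarith
  have k7 : ∑ v ∈ VF K x, w v * (A.indicator (fun _ => (1 : ℂ)) ((nm v * α : ℝ) : UnitAddCircle) - (s : ℂ)) =
      LC w α (cpl f) x + ∑ v ∈ VF K x, w v * (A.indicator (fun _ => (1 : ℂ))
        ((nm v * α : ℝ) : UnitAddCircle) - cpl f ((nm v * α : ℝ) : UnitAddCircle)) +
      ∑ v ∈ VF K x, w v * (((∫ y, f y : ℝ) : ℂ) - (s : ℂ)) := by
    unfold LC
    rw [integral_cpl, ← sum_add_distrib, ← sum_add_distrib]
    refine sum_congr rfl fun v _ => ?_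
    ring
  have k8 : ‖∑ v ∈ VF K x, w v * (A.indicator (fun _ => (1 : ℂ))
        ((nm v * α : ℝ) : UnitAddCircle) - cpl f ((nm v * α : ℝ) : UnitAddCircle))‖ ≤ |W| * (3 * δ * c) := by
    refine le_trans ?_ (mul_le_mul_of_nonneg_left k1 hW)
    rw [mul_sum]
    refine norm_sum_le_of_le _ fun v _ => ?_
    rw [norm_mul]
    exact mul_le_mul (hw' v) (hpt _) (norm_nonneg _) hW
  have k9 : ‖∑ v ∈ VF K x, w v * (((∫ y, f y : ℝ) : ℂ) - (s : ℂ))‖ ≤ |W| * (δ * c) := by
    have : |W| * (δ * c) = ∑ _v ∈ VF K x, |W| * δ := by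
      rw [sum_const, nsmul_eq_mul, ← hc]; ring
    rw [this]
    refine norm_sum_le_of_le _ fun v _ => ?_
    rw [norm_mul]
    refine mul_le_mul (hw' v) ?_ (norm_nonneg _) hW
    rw [← Complex.ofReal_sub, Complex.norm_real, Real.norm_of_nonneg (by linarith)]
    linarith
  rw [k7]
  have k10 : |W| * δ ≤ ε / 8 := by
    rw [hδ, mul_div_assoc', div_le_div_iff₀ (by positivity) (by norm_num)]
    nlinarith
  have k11 := norm_add_le (LC w α (cpl f) x + ∑ v ∈ VF K x, w v * (A.indicator (fun _ => (1 : ℂ))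
        ((nm v * α : ℝ) : UnitAddCircle) - cpl f ((nm v * α : ℝ) : UnitAddCircle)))
      (∑ v ∈ VF K x, w v * (((∫ y, f y : ℝ) : ℂ) - (s : ℂ)))
  have k12 := norm_add_le (LC w α (cpl f) x) (∑ v ∈ VF K x, w v * (A.indicator (fun _ => (1 : ℂ))
        ((nm v * α : ℝ) : UnitAddCircle) - cpl f ((nm v * α : ℝ) : UnitAddCircle)))
  have k13 : |W| * (3 * δ * c) = 3 * (|W| * δ) * c := by ring
  have k14 : |W| * (δ * c) = (|W| * δ) * c := by ring
  have k15 : (|W| * δ) * c ≤ ε / 8 * c := mul_le_mul_of_nonneg_right k10 g3.le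
  have k16 : 3 * (|W| * δ) * c ≤ 3 * (ε / 8) * c := by nlinarith
  have k17 : 0 < ε / 8 * c := by positivity
  nlinarith

/-! ### the abstract equivalence -/

theorem law_iff {S S' c c' : ℕ → ℂ} {κ : ℂ} (hκ : κ ≠ 0)
    (hc : ∀ᶠ x in atTop, c x ≠ 0)
    (h1 : Tendsto (fun x => c' x / c x) atTop (𝓝 κ))
    (h2 : Tendsto (fun x => S' x / c x - κ * (S x / c x)) atTop (𝓝 0)) (m : ℂ) :
    Tendsto (fun x => S x / c x) atTop (𝓝 m) ↔ Tendsto (fun x => S' x / c' x) atTop (𝓝 m) := by
  have hne : ∀ᶠ x in atTop, c' x / c x ≠ 0 := h1.eventually_ne hκ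
  constructor
  · intro h
    have h3 := (h2.add (h.const_mul κ)).div h1 hκ
    rw [zero_add, mul_div_cancel_left₀ _ hκ] at h3
    refine h3.congr' ?_
    filter_upwards [hc, hne] with x hx hx'
    simp only [Pi.div_apply]
    rw [sub_add_cancel, div_div_div_cancel_right₀ hx]
  · intro h
    have h3 := h.mul h1
    have h4 : Tendsto (fun x => S' x / c x) atTop (𝓝 (m * κ)) := by
      refine h3.congr' ?_
      filter_upwards [hc, hne] with x hx hx'
      have : c' x ≠ 0 := by
        intro h0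
        apply hx'
        rw [h0, zero_div]
      field_simp
    have h5 := (h4.sub h2).div_const κ
    rw [sub_zero, mul_div_cancel_right₀ _ hκ] at h5
    refine h5.congr fun x => ?_
    rw [sub_sub_cancel, mul_div_cancel_left₀ _ hκ]

/-! ### Beatty sequences -/

/-- the arc `[0, ℓ)` -/
def arc (ℓ : ℝ) : Set UnitAddCircle := (fun s : ℝ => (s : UnitAddCircle)) '' Set.Ico 0 ℓ

theorem volume_finite {S : Set UnitAddCircle} (hS : S.Finite) : volume S = 0 := by
  have h1 : ∀ x : UnitAddCircle, volume ({x} : Set UnitAddCircle) = 0 := by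
    intro x
    have := AddCircle.volume_closedBall (T := (1 : ℝ)) (x := x) 0
    rw [Metric.closedBall_zero] at this
    rw [this]
    simp
  rw [← Set.biUnion_of_singleton S]
  exact (measure_biUnion_null_iff hS.countable).2 fun x _ => h1 x

theorem frontier_arc (ℓ : ℝ) : (frontier (arc ℓ)).Finite := by
  have h1 : closure (arc ℓ) ⊆ (fun s : ℝ => (s : UnitAddCircle)) '' Set.Icc 0 ℓ := by
    apply closure_minimal (Set.image_mono Set.Ico_subset_Icc_self)
    exact (isCompact_Icc.image (AddCircle.continuous_mk' 1)).isClosed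
  have h2 : (fun s : ℝ => (s : UnitAddCircle)) '' Set.Ioo 0 ℓ ⊆ interior (arc ℓ) := by
    apply interior_maximal (Set.image_mono Set.Ioo_subset_Ico_self)
    exact QuotientAddGroup.isOpenMap_coe _ isOpen_Ioo
  have h3 : frontier (arc ℓ) ⊆ (fun s : ℝ => (s : UnitAddCircle)) '' {0, ℓ} := by
    rintro y ⟨hy1, hy2⟩
    obtain ⟨s, hs, rfl⟩ := h1 hy1
    refine ⟨s, ?_, rfl⟩
    rw [Set.mem_insert_iff, Set.mem_singleton_iff]
    by_contra hcon
    rw [not_or] at hcon
    apply hy2
    apply h2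
    exact ⟨s, ⟨lt_of_le_of_ne hs.1 (Ne.symm hcon.1), lt_of_le_of_ne hs.2 hcon.2⟩, rfl⟩
  exact (Set.Finite.image _ (Set.toFinite _)).subset h3

/-- the set which describes a Beatty sequence -/
def beattySet (α γ : ℝ) : Set UnitAddCircle :=
  (Homeomorph.subLeft ((γ / α : ℝ) : UnitAddCircle)) ⁻¹' arc (1 / α)

theorem frontier_beatty (α γ : ℝ) : volume (frontier (beattySet α γ)) = 0 := by
  apply volume_finite
  unfold beattySet
  rw [← Homeomorph.preimage_frontier]
  exact (frontier_arc _).preimage (Homeomorph.injective _).injOn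

theorem volume_beatty {α : ℝ} (hα : 0 < α) (γ : ℝ) : 0 < volume (beattySet α γ) := by
  have h1 : IsOpen ((Homeomorph.subLeft ((γ / α : ℝ) : UnitAddCircle)) ⁻¹'
      ((fun s : ℝ => (s : UnitAddCircle)) '' Set.Ioo 0 (1 / α))) :=
    (QuotientAddGroup.isOpenMap_coe _ isOpen_Ioo).preimage (Homeomorph.continuous _)
  have h2 : ((Homeomorph.subLeft ((γ / α : ℝ) : UnitAddCircle)) ⁻¹'
      ((fun s : ℝ => (s : UnitAddCircle)) '' Set.Ioo 0 (1 / α))).Nonempty := by
    apply Set.Nonempty.preimage _ (Homeomorph.surjective _)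
    apply Set.Nonempty.image
    exact Set.nonempty_Ioo.2 (by positivity)
  refine (h1.measure_pos volume h2).trans_le (measure_mono ?_)
  exact Set.preimage_mono (Set.image_mono Set.Ioo_subset_Ico_self)

theorem beatty_iff {α : ℝ} (hα : 0 < α) (γ : ℝ) (N : ℕ) :
    (∃ k : ℤ, (N : ℤ) = ⌊α * k + γ⌋) ↔ ((N * α⁻¹ : ℝ) : UnitAddCircle) ∈ beattySet α γ := by
  unfold beattySet arc
  rw [Set.mem_preimage, Homeomorph.subLeft_apply, Set.mem_image]
  have key : ∀ k : ℤ, (N : ℤ) = ⌊α * k + γ⌋ ↔ (0 ≤ k - (N - γ) / α ∧ k - (N - γ) / α < 1 / α) := by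
    intro k
    rw [eq_comm, Int.floor_eq_iff]
    have e1 : (k : ℝ) - (N - γ) / α = (α * k + γ - N) / α := by field_simp; ring
    rw [e1, div_nonneg_iff, div_lt_div_iff_of_pos_right hα]
    push_cast
    constructor
    · rintro ⟨h1, h2⟩
      exact ⟨Or.inl ⟨by linarith, hα.le⟩, by linarith⟩
    · rintro ⟨h1, h2⟩
      refine ⟨?_, by linarith⟩
      rcases h1 with h | h
      · linarith [h.1]
      · linarith [h.2]
  constructor
  · rintro ⟨k, hk⟩
    obtain ⟨h1, h2⟩ := (key k).1 hk
    refine ⟨k - (N - γ) / α, ⟨h1, h2⟩, ?_⟩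
    have e2 : (k : ℝ) - (N - γ) / α = (γ / α - N * α⁻¹) + (k : ℝ) * 1 := by field_simp; ring
    rw [e2]
    rw [AddCircle.coe_add, AddCircle.coe_sub]
    have : (((k : ℝ) * 1 : ℝ) : UnitAddCircle) = 0 := by
      rw [AddCircle.coe_eq_zero_iff]
      exact ⟨k, by simp⟩
    rw [this, add_zero]
  · rintro ⟨s, hs, hs2⟩
    rw [← AddCircle.coe_sub, ← sub_eq_zero, ← AddCircle.coe_sub, AddCircle.coe_eq_zero_iff] at hs2
    obtain ⟨k, hk⟩ := hs2
    refine ⟨k, (key k).2 ?_⟩
    have : (k : ℝ) - (N - γ) / α = s := by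
      have e3 : (k : ℝ) = s - (γ / α - N * α⁻¹) := by
        rw [← hk]; simp
      rw [e3]
      field_simp
      ring
    rw [this]
    exact hs

end Pool.Agent.H90.ST
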