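import Pool.Graph.R_seed8.Helper112.LS
import Pool.Graph.R_seed8.Helper923.PPS.BT
import Pool.Graph.R_seed8.Helper602.MK.J5b
import Pool.Graph.R_seed8.Erdos456.Mertens

/-! # The large sieve for functions on the primes at arbitrary well-spaced points

`∑_r |∑_{p ≤ N} b(p) e(p ξ_r)|² ≤ C log (2 R) (N / log N)²` for `R` points `ξ_r`, `1/N`-separated
modulo one, and `|b| ≤ 1`.
-/

set_option autoImplicit false

namespace Pool.Agent.H90.ST

open Finset Pool.Agent.Helper112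

/-! ### sums over integers coprime to a set of primes -/

/-- removing one prime -/
theorem harm_step (M P p : ℕ) (hp : p.Prime) :
    (1 - 1 / (p : ℝ)) * ∑ n ∈ (Icc 1 M).filter (fun n => Nat.Coprime n P), (n : ℝ)⁻¹ ≤
      ∑ n ∈ (Icc 1 M).filter (fun n => Nat.Coprime n (p * P)), (n : ℝ)⁻¹ := by
  classical
  set A := (Icc 1 M).filter (fun n => Nat.Coprime n P) with hA
  have h1 : ∑ n ∈ A, (n : ℝ)⁻¹ = ∑ n ∈ A.filter (fun n => p ∣ n), (n : ℝ)⁻¹ +
      ∑ n ∈ A.filter (fun n => ¬ p ∣ n), (n : ℝ)⁻¹ :=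
    (sum_filter_add_sum_filter_not A (fun n => p ∣ n) _).symm
  have h2 : A.filter (fun n => ¬ p ∣ n) = (Icc 1 M).filter (fun n => Nat.Coprime n (p * P)) := by
    ext n
    simp only [hA, mem_filter, mem_Icc]
    constructor
    · rintro ⟨⟨h3, h4⟩, h5⟩
      refine ⟨h3, Nat.Coprime.mul_right ?_ h4⟩
      exact ((Nat.Prime.coprime_iff_not_dvd hp).2 h5).symm
    · rintro ⟨h3, h4⟩
      refine ⟨⟨h3, Nat.Coprime.coprime_mul_left_right h4⟩, ?_⟩
      exact (Nat.Prime.coprime_iff_not_dvd hp).1 (Nat.Coprime.coprime_mul_right_right h4).symm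
  have h3 : ∑ n ∈ A.filter (fun n => p ∣ n), (n : ℝ)⁻¹ ≤ (1 / (p : ℝ)) * ∑ n ∈ A, (n : ℝ)⁻¹ := by
    have hp0 : (0 : ℝ) < p := by exact_mod_cast hp.pos
    have h4 : A.filter (fun n => p ∣ n) ⊆ A.image (fun n => p * n) := by
      intro n hn
      rw [mem_filter] at hn
      obtain ⟨hn1, k, rfl⟩ := hn
      rw [hA, mem_filter, mem_Icc] at hn1
      rw [mem_image]
      refine ⟨k, ?_, rfl⟩
      rw [hA, mem_filter, mem_Icc]
      have hk : 1 ≤ k := by
        rcases Nat.eq_zero_or_pos k with h | h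
        · subst h; simp at hn1
        · exact h
      refine ⟨⟨hk, ?_⟩, Nat.Coprime.coprime_mul_left hn1.2⟩
      have : k ≤ p * k := Nat.le_mul_of_pos_left k hp.pos
      omega
    calc ∑ n ∈ A.filter (fun n => p ∣ n), (n : ℝ)⁻¹ ≤ ∑ n ∈ A.image (fun n => p * n), (n : ℝ)⁻¹ :=
          sum_le_sum_of_subset_of_nonneg h4 fun _ _ _ => by positivity
      _ = ∑ n ∈ A, ((p * n : ℕ) : ℝ)⁻¹ := by
          rw [sum_image]
          intro a _ b _ hab
          exact Nat.eq_of_mul_eq_mul_left hp.pos hab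
      _ = (1 / (p : ℝ)) * ∑ n ∈ A, (n : ℝ)⁻¹ := by
          rw [mul_sum]
          refine sum_congr rfl fun n _ => ?_
          push_cast
          rw [mul_inv]
          ring
  rw [← h2]
  linarith

theorem harm_coprime (M : ℕ) (S : Finset ℕ) (hS : ∀ p ∈ S, p.Prime) :
    (∏ p ∈ S, (1 - 1 / (p : ℝ))) * ∑ n ∈ Icc 1 M, (n : ℝ)⁻¹ ≤
      ∑ n ∈ (Icc 1 M).filter (fun n => Nat.Coprime n (∏ p ∈ S, p)), (n : ℝ)⁻¹ := by
  classical
  induction S using Finset.induction_on with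
  | empty => simp
  | insert p S hpS ih =>
    have hp : p.Prime := hS p (mem_insert_self _ _)
    have ih' := ih (fun q hq => hS q (mem_insert_of_mem hq))
    rw [prod_insert hpS, prod_insert hpS]
    have h1 := harm_step M (∏ q ∈ S, q) p hp
    have h0 : (0 : ℝ) ≤ 1 - 1 / (p : ℝ) := by
      have : (1 : ℝ) ≤ p := by exact_mod_cast hp.one_lt.le
      rw [sub_nonneg, div_le_one (by linarith)]
      exact this
    calc (1 - 1 / (p : ℝ)) * (∏ q ∈ S, (1 - 1 / (q : ℝ))) * ∑ n ∈ Icc 1 M, (n : ℝ)⁻¹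
        = (1 - 1 / (p : ℝ)) * ((∏ q ∈ S, (1 - 1 / (q : ℝ))) * ∑ n ∈ Icc 1 M, (n : ℝ)⁻¹) := by ring
      _ ≤ (1 - 1 / (p : ℝ)) * ∑ n ∈ (Icc 1 M).filter (fun n => Nat.Coprime n (∏ p ∈ S, p)), (n : ℝ)⁻¹ :=
          mul_le_mul_of_nonneg_left ih' h0
      _ ≤ _ := h1

/-- Mertens: the product over at most `k` primes. -/
theorem prod_primes_ge : ∃ c : ℝ, 0 < c ∧ ∀ (k : ℕ) (S : Finset ℕ), 3 ≤ k → S.card ≤ k →
    (∀ p ∈ S, p.Prime) → c / Real.log k ≤ ∏ p ∈ S, (1 - 1 / (p : ℝ)) := by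
  classical
  obtain ⟨C, hC⟩ := Pool.Agent.Erdos456.Mert.mertens_inv
  refine ⟨Real.exp (-(C + 3)), Real.exp_pos _, fun k S hk hSk hS => ?_⟩
  have hk0 : (0 : ℝ) < k := by exact_mod_cast (by omega : 0 < k)
  have hlk : 0 < Real.log k := Real.log_pos (by exact_mod_cast (by omega : 1 < k))
  -- sum of 1/p
  have h1 : ∑ p ∈ S, 1 / (p : ℝ) ≤ Real.log (Real.log k) + C + 1 := by
    have e : ∑ p ∈ S, 1 / (p : ℝ) = ∑ p ∈ S.filter (fun p => p ≤ k), 1 / (p : ℝ) +
        ∑ p ∈ S.filter (fun p => ¬ p ≤ k), 1 / (p : ℝ) := (sum_filter_add_sum_filter_not S _ _).symm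
    have a1 : ∑ p ∈ S.filter (fun p => p ≤ k), 1 / (p : ℝ) ≤ Real.log (Real.log k) + C := by
      have b1 : S.filter (fun p => p ≤ k) ⊆ (Icc 1 k).filter Nat.Prime := by
        intro p hp
        rw [mem_filter] at hp
        rw [mem_filter, mem_Icc]
        exact ⟨⟨(hS p hp.1).pos, hp.2⟩, hS p hp.1⟩
      have b2 := sum_le_sum_of_subset_of_nonneg (f := fun p : ℕ => 1 / (p : ℝ)) b1
        (fun _ _ _ => by positivity)
      have b3 := (abs_le.1 (hC k hk)).2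
      linarith
    have a2 : ∑ p ∈ S.filter (fun p => ¬ p ≤ k), 1 / (p : ℝ) ≤ 1 := by
      calc ∑ p ∈ S.filter (fun p => ¬ p ≤ k), 1 / (p : ℝ) ≤ ∑ p ∈ S.filter (fun p => ¬ p ≤ k), 1 / (k : ℝ) := by
            apply sum_le_sum
            intro p hp
            rw [mem_filter] at hp
            apply one_div_le_one_div_of_le hk0
            exact_mod_cast (by omega : k ≤ p)
        _ = (S.filter (fun p => ¬ p ≤ k)).card * (1 / (k : ℝ)) := by rw [sum_const, nsmul_eq_mul]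
        _ ≤ k * (1 / (k : ℝ)) := by
            apply mul_le_mul_of_nonneg_right _ (by positivity)
            exact_mod_cast (card_filter_le _ _).trans hSk
        _ = 1 := by field_simp
    linarith
  have h2 : ∑ p ∈ S, ((p : ℝ) ^ 2)⁻¹ ≤ 2 := by
    have b1 : S ⊆ Icc 1 (S.sup id) := by
      intro p hp
      rw [mem_Icc]
      exact ⟨(hS p hp).pos, le_sup (f := id) hp⟩
    exact (sum_le_sum_of_subset_of_nonneg b1 (fun _ _ _ => by positivity)).trans
      (Pool.Agent.Helper923.PPS.sum_inv_sq_le _)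
  have h3 : ∀ p ∈ S, Real.exp (-(1 / (p : ℝ)) - ((p : ℝ) ^ 2)⁻¹) ≤ 1 - 1 / (p : ℝ) := by
    intro p hp
    have hp2 : (2 : ℝ) ≤ p := by exact_mod_cast (hS p hp).two_le
    have hp0 : (0 : ℝ) < p := by linarith
    set x : ℝ := 1 / (p : ℝ) with hx
    have hx0 : 0 < x := by positivity
    have hx2 : x ≤ 1 / 2 := one_div_le_one_div_of_le (by norm_num) hp2
    have hxx : ((p : ℝ) ^ 2)⁻¹ = x ^ 2 := by rw [hx]; field_simp
    rw [hxx]
    -- exp(-x-x^2) ≤ 1 - x  iff exp (x + x^2) ≥ 1/(1-x)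
    have k1 : 1 / (1 - x) ≤ Real.exp (x + x ^ 2) := by
      have k2 := Real.quadratic_le_exp_of_nonneg (x := x + x ^ 2) (by positivity)
      refine le_trans ?_ k2
      rw [div_le_iff₀ (by linarith)]
      nlinarith [mul_pos hx0 hx0, mul_pos (mul_pos hx0 hx0) hx0, mul_nonneg hx0.le (sub_nonneg.2 hx2), mul_nonneg (mul_pos hx0 hx0).le (sub_nonneg.2 hx2), mul_nonneg (mul_pos (mul_pos hx0 hx0) hx0).le (sub_nonneg.2 hx2)]
    have k3 : Real.exp (-x - x ^ 2) = (Real.exp (x + x ^ 2))⁻¹ := by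
      rw [← Real.exp_neg]; congr 1; ring
    rw [k3, inv_le_comm₀ (Real.exp_pos _) (by linarith)]
    rw [one_div] at k1
    exact k1
  calc Real.exp (-(C + 3)) / Real.log k = Real.exp (-(Real.log (Real.log k) + C + 3)) := by
        rw [show -(Real.log (Real.log k) + C + 3) = -(C + 3) - Real.log (Real.log k) by ring,
          Real.exp_sub, Real.exp_log hlk]
    _ ≤ Real.exp (∑ p ∈ S, (-(1 / (p : ℝ)) - ((p : ℝ) ^ 2)⁻¹)) := by
        apply Real.exp_le_exp.2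
        rw [sum_sub_distrib, sum_neg_distrib]
        linarith
    _ = ∏ p ∈ S, Real.exp (-(1 / (p : ℝ)) - ((p : ℝ) ^ 2)⁻¹) := Real.exp_sum _ _
    _ ≤ ∏ p ∈ S, (1 - 1 / (p : ℝ)) := prod_le_prod (fun _ _ => (Real.exp_pos _).le) h3

/-! ### one point and one denominator -/

/-- the exponential sum -/
noncomputable def TT (N : ℕ) (b : ℕ → ℂ) (x : ℝ) : ℂ := ∑ n ∈ Icc 1 N, b n * ee (n * x)

theorem ee_eq_MK (x : ℝ) : ee x = Pool.Agent.Helper602.MK.ee x := rfl

theorem TT_le (N : ℕ) (b : ℕ → ℂ) (x : ℝ) (m : ℕ) (hm : Squarefree m)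
    (hb : ∀ n, b n ≠ 0 → Nat.Coprime n m) :
    ‖TT N b x‖ ^ 2 * (m : ℝ)⁻¹ ≤
      ∑ h ∈ (range m).filter (fun h => Nat.Coprime h m), ‖TT N b (x + (h : ℝ) / m)‖ ^ 2 := by
  have hm0 : m ≠ 0 := hm.ne_zero
  have hmpos : (0 : ℝ) < m := by exact_mod_cast Nat.pos_of_ne_zero hm0
  set H := (range m).filter (fun h => Nat.Coprime h m) with hH
  have h1 : ∑ h ∈ H, TT N b (x + (h : ℝ) / m) = ((ArithmeticFunction.moebius m : ℤ) : ℂ) * TT N b x := by
    unfold TT
    rw [sum_comm, mul_sum]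
    apply sum_congr rfl
    intro n _
    by_cases hbn : b n = 0
    · rw [hbn]; simp
    · have hc := hb n hbn
      have hr := Pool.Agent.Helper602.MK.N_J5b.ramanujan m n hm0 hc
      rw [← hr, ← hH, sum_mul]
      apply sum_congr rfl
      intro h _
      rw [← ee_eq_MK, mul_left_comm, ← ls_ee_add]
      congr 2
      ring
  have h2 : ‖∑ h ∈ H, TT N b (x + (h : ℝ) / m)‖ = ‖TT N b x‖ := by
    rw [h1, norm_mul]
    have h3 := ArithmeticFunction.moebius_sq_eq_one_of_squarefree hm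
    have h4 : ‖((ArithmeticFunction.moebius m : ℤ) : ℂ)‖ = 1 := by
      have h3' : ArithmeticFunction.moebius m * ArithmeticFunction.moebius m = 1 := by
        rw [← sq]; exact h3
      rcases mul_self_eq_one_iff.1 h3' with h | h
      · rw [h]; simp
      · rw [h]; simp
    rw [h4, one_mul]
  have h5 : ‖TT N b x‖ ≤ ∑ h ∈ H, ‖TT N b (x + (h : ℝ) / m)‖ := by
    rw [← h2]; exact norm_sum_le _ _
  have h6 : ‖TT N b x‖ ^ 2 ≤ H.card * ∑ h ∈ H, ‖TT N b (x + (h : ℝ) / m)‖ ^ 2 := by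
    calc ‖TT N b x‖ ^ 2 ≤ (∑ h ∈ H, ‖TT N b (x + (h : ℝ) / m)‖) ^ 2 :=
          pow_le_pow_left₀ (norm_nonneg _) h5 2
      _ ≤ _ := sq_sum_le_card_mul_sum_sq
  have h7 : (H.card : ℝ) ≤ m := by
    have := card_filter_le (range m) (fun h => Nat.Coprime h m)
    rw [card_range] at this
    exact_mod_cast this
  have h8 : 0 ≤ ∑ h ∈ H, ‖TT N b (x + (h : ℝ) / m)‖ ^ 2 := sum_nonneg fun _ _ => by positivity
  rw [← div_eq_mul_inv, div_le_iff₀ hmpos]
  calc ‖TT N b x‖ ^ 2 ≤ H.card * ∑ h ∈ H, ‖TT N b (x + (h : ℝ) / m)‖ ^ 2 := h6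
    _ ≤ m * ∑ h ∈ H, ‖TT N b (x + (h : ℝ) / m)‖ ^ 2 := mul_le_mul_of_nonneg_right h7 h8
    _ = _ := mul_comm _ _

/-! ### separation of the shifted points -/

/-- `x` is within `1 / K` of an integer -/
def Near (K : ℕ) (x : ℝ) : Prop := ∃ k : ℤ, |x - k| < 1 / (K : ℝ)

theorem near_of_not_sep {K : ℕ} {x : ℝ} (h : ¬ lsSep K x) : Near K x := by
  unfold lsSep at h
  rw [not_and_or, not_le, not_le] at h
  rcases h with h | h
  · refine ⟨⌊x⌋, ?_⟩
    rw [show x - (⌊x⌋ : ℝ) = Int.fract x from rfl, abs_of_nonneg (Int.fract_nonneg x)]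
    exact h
  · refine ⟨⌊x⌋ + 1, ?_⟩
    have h1 : x - ((⌊x⌋ + 1 : ℤ) : ℝ) = Int.fract x - 1 := by
      push_cast
      rw [← Int.self_sub_floor]
      ring
    rw [h1, abs_sub_comm, abs_of_nonneg (by linarith [Int.fract_lt_one x])]
    linarith

theorem not_sep_of_near {K : ℕ} {x : ℝ} (h : Near K x) : ¬ lsSep K x := by
  obtain ⟨k, hk⟩ := h
  rw [abs_lt] at hk
  rintro ⟨h1, h2⟩
  have h3 : x = ⌊x⌋ + Int.fract x := (Int.floor_add_fract x).symm
  have h4 := Int.fract_nonneg x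
  have h5 := Int.fract_lt_one x
  have hK : (0 : ℝ) ≤ 1 / (K : ℝ) := by positivity
  rcases lt_or_ge ⌊x⌋ k with h6 | h6
  · have h7 : (⌊x⌋ : ℝ) + 1 ≤ k := by exact_mod_cast h6
    linarith
  · have h7 : (k : ℝ) ≤ ⌊x⌋ := by exact_mod_cast h6
    linarith

theorem near_mono {K L : ℕ} (hK : 1 ≤ K) (hKL : K ≤ L) {x : ℝ} (h : Near L x) : Near K x := by
  obtain ⟨k, hk⟩ := h
  refine ⟨k, hk.trans_le ?_⟩
  apply one_div_le_one_div_of_le (by exact_mod_cast hK)
  exact_mod_cast hKL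

/-- The excluded prime of a real number `θ`: a prime factor of the least denominator `e ≤ M ^ 2` of a
fraction within `1 / L` of `θ`. -/
theorem excluded (M L : ℕ) (hL : 1 ≤ L) (hML : 2 * M ^ 4 ≤ L) (θ : ℝ) (hθ : ¬ Near L θ) :
    ∃ p : ℕ, p.Prime ∧ ∀ (e : ℕ) (u : ℤ), 1 ≤ e → e ≤ M ^ 2 → |θ - (u : ℝ) / e| < 1 / (L : ℝ) → p ∣ e := by
  classical
  by_cases hex : ∃ e : ℕ, 1 ≤ e ∧ e ≤ M ^ 2 ∧ ∃ u : ℤ, |θ - (u : ℝ) / e| < 1 / (L : ℝ)
  · obtain ⟨h1, h2, u0, h3⟩ := Nat.find_spec hex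
    have hmin : ∀ e : ℕ, 1 ≤ e → e ≤ M ^ 2 → (∃ u : ℤ, |θ - (u : ℝ) / e| < 1 / (L : ℝ)) →
        Nat.find hex ≤ e := fun e a b c => Nat.find_min' hex ⟨a, b, c⟩
    set e0 := Nat.find hex with he0
    have he0pos : (0 : ℝ) < e0 := by exact_mod_cast h1
    have he01 : e0 ≠ 1 := by
      intro h
      apply hθ
      refine ⟨u0, ?_⟩
      rw [h] at h3
      simpa using h3
    refine ⟨e0.minFac, Nat.minFac_prime he01, ?_⟩
    intro e u g1 g2 g3
    have hepos : (0 : ℝ) < e := by exact_mod_cast g1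
    have hL0 : (0 : ℝ) < L := by exact_mod_cast hL
    -- u / e = u0 / e0
    have k1 : |(u : ℝ) / e - (u0 : ℝ) / e0| < 2 / L := by
      have : (u : ℝ) / e - (u0 : ℝ) / e0 = (θ - (u0 : ℝ) / e0) - (θ - (u : ℝ) / e) := by ring
      rw [this]
      refine (abs_sub _ _).trans_lt ?_
      have : (2 : ℝ) / L = 1 / L + 1 / L := by ring
      rw [this]
      linarith
    have k2 : (e : ℝ) * e0 ≤ M ^ 4 := by
      have : e * e0 ≤ M ^ 2 * M ^ 2 := Nat.mul_le_mul g2 h2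
      have h4 : ((e * e0 : ℕ) : ℝ) ≤ ((M ^ 2 * M ^ 2 : ℕ) : ℝ) := by exact_mod_cast this
      push_cast at h4
      calc (e : ℝ) * e0 ≤ (M : ℝ) ^ 2 * (M : ℝ) ^ 2 := h4
        _ = _ := by ring
    have k3 : |((u * e0 - u0 * e : ℤ) : ℝ)| < 1 := by
      have h5 : ((u * e0 - u0 * e : ℤ) : ℝ) = ((u : ℝ) / e - (u0 : ℝ) / e0) * (e * e0) := by
        push_cast
        field_simp
      rw [h5, abs_mul, abs_of_pos (show (0 : ℝ) < e * e0 by positivity)]
      have h6 : (2 : ℝ) * M ^ 4 ≤ L := by exact_mod_cast hML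
      calc |(u : ℝ) / e - (u0 : ℝ) / e0| * (e * e0) < 2 / L * (e * e0) :=
            mul_lt_mul_of_pos_right k1 (by positivity)
        _ ≤ 2 / L * M ^ 4 := mul_le_mul_of_nonneg_left k2 (by positivity)
        _ = (2 * M ^ 4) / L := by ring
        _ ≤ 1 := by rw [div_le_one hL0]; exact h6
    have k4 : u * e0 - u0 * e = 0 := by
      have h7 : |u * e0 - u0 * e| < 1 := by exact_mod_cast k3
      exact Int.abs_lt_one_iff.1 h7
    -- coprimality of u0, e0
    have k5 : IsCoprime (e0 : ℤ) u0 := by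
      rw [Int.isCoprime_iff_gcd_eq_one]
      by_contra hg
      set g := Int.gcd (e0 : ℤ) u0 with hgdef
      have hg0 : 0 < g := Int.gcd_pos_of_ne_zero_left _ (by exact_mod_cast (by omega : e0 ≠ 0))
      have hg2 : 2 ≤ g := by omega
      obtain ⟨e1, he1⟩ : (g : ℤ) ∣ (e0 : ℤ) := Int.gcd_dvd_left _ _
      obtain ⟨u1, hu1⟩ : (g : ℤ) ∣ u0 := Int.gcd_dvd_right _ _
      have he1pos : 0 < e1 := by
        by_contra hneg
        have : (g : ℤ) * e1 ≤ 0 := mul_nonpos_of_nonneg_of_nonpos (by positivity) (by omega)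
        have h0 : (0 : ℤ) < e0 := by exact_mod_cast h1
        omega
      obtain ⟨e1', rfl⟩ := Int.eq_ofNat_of_zero_le he1pos.le
      have he1n : e0 = g * e1' := by exact_mod_cast he1
      have he1' : 1 ≤ e1' := by
        have : (0 : ℤ) < (e1' : ℤ) := he1pos
        exact_mod_cast this
      have hlt : e1' < e0 := by
        rw [he1n]
        calc e1' < 2 * e1' := by omega
          _ ≤ g * e1' := Nat.mul_le_mul_right _ hg2
      have := hmin e1' he1' (hlt.le.trans h2) ⟨u1, by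
        have hgr : (g : ℝ) ≠ 0 := by exact_mod_cast hg0.ne'
        have e5 : (u1 : ℝ) / e1' = (u0 : ℝ) / e0 := by
          rw [hu1, he1n]
          push_cast
          rw [mul_div_mul_left _ _ hgr]
        rw [e5]
        exact h3⟩
      omega
    have k6 : (e0 : ℤ) ∣ e := by
      have h8 : (e0 : ℤ) ∣ u0 * e := ⟨u, by linarith⟩
      exact k5.dvd_of_dvd_mul_left h8
    have k7 : e0 ∣ e := by exact_mod_cast k6
    exact (Nat.minFac_dvd e0).trans k7
  · refine ⟨2, Nat.prime_two, ?_⟩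
    intro e u g1 g2 g3
    exact absurd ⟨e, g1, g2, u, g3⟩ hex

/-- the separation of the points `ξ r + h / m` -/
theorem sep_shift {M L : ℕ} (hL : 1 ≤ L) (hML : 2 * M ^ 4 ≤ L) {x y : ℝ} {P m m' h h' : ℕ}
    (hm : 1 ≤ m) (hmM : m ≤ M) (hmP : Nat.Coprime m P) (hh : h < m) (hc : Nat.Coprime h m)
    (hm' : 1 ≤ m') (hmM' : m' ≤ M) (hmP' : Nat.Coprime m' P) (hh' : h' < m') (hc' : Nat.Coprime h' m')
    (hxy : (x = y ∧ ¬ (m = m' ∧ h = h')) ∨
      (∃ p : ℕ, p.Prime ∧ p ∣ P ∧ ∀ (e : ℕ) (u : ℤ), 1 ≤ e → e ≤ M ^ 2 →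
        |(y - x) - (u : ℝ) / e| < 1 / (L : ℝ) → p ∣ e)) :
    lsSep L ((y + (h' : ℝ) / m') - (x + (h : ℝ) / m)) := by
  by_contra hsep
  obtain ⟨k, hk⟩ := near_of_not_sep hsep
  have hm0 : (0 : ℝ) < m := by exact_mod_cast hm
  have hm0' : (0 : ℝ) < m' := by exact_mod_cast hm'
  have hL0 : (0 : ℝ) < L := by exact_mod_cast hL
  have hmm : m * m' ≤ M ^ 2 := by rw [sq]; exact Nat.mul_le_mul hmM hmM'
  have e1 : (y + (h' : ℝ) / m') - (x + (h : ℝ) / m) - k =
      (y - x) - ((k * (m * m') + h * m' - h' * m : ℤ) : ℝ) / ((m * m' : ℕ) : ℝ) := by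
    push_cast
    field_simp
    ring
  rw [e1] at hk
  rcases hxy with ⟨hxy, hne⟩ | ⟨p, hp, hpP, hall⟩
  · rw [hxy, sub_self, zero_sub, abs_neg, abs_div] at hk
    have hmm0 : (0 : ℝ) < ((m * m' : ℕ) : ℝ) := by push_cast; positivity
    rw [abs_of_pos hmm0, div_lt_div_iff₀ hmm0 hL0, one_mul] at hk
    have h2 : ((m * m' : ℕ) : ℝ) ≤ L := by
      have : m * m' ≤ L := by
        have h4 : M ^ 2 ≤ M ^ 4 := by
          rcases Nat.eq_zero_or_pos M with h | h
          · omega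
          · exact Nat.pow_le_pow_right h (by norm_num)
        omega
      exact_mod_cast this
    have h3 : |((k * (m * m') + h * m' - h' * m : ℤ) : ℝ)| < 1 := by
      by_contra hcon
      rw [not_lt] at hcon
      have : (L : ℝ) ≤ |((k * (m * m') + h * m' - h' * m : ℤ) : ℝ)| * L := by
        nlinarith
      linarith
    have h5 : k * (m * m') + h * m' - h' * m = 0 := by
      have : |k * ((m : ℤ) * m') + h * m' - h' * m| < 1 := by exact_mod_cast h3
      exact Int.abs_lt_one_iff.1 this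
    have h6 : k = 0 := by
      have a1 : (h : ℤ) * m' < m * m' := by
        have : h * m' < m * m' := Nat.mul_lt_mul_of_pos_right hh (by omega)
        exact_mod_cast this
      have a2 : (h' : ℤ) * m < m * m' := by
        have : h' * m < m * m' := by rw [mul_comm m m']; exact Nat.mul_lt_mul_of_pos_right hh' (by omega)
        exact_mod_cast this
      have a3 : (0 : ℤ) ≤ (h : ℤ) * m' := by positivity
      have a4 : (0 : ℤ) ≤ (h' : ℤ) * m := by positivity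
      have a5 : (0 : ℤ) < (m : ℤ) * m' := by positivity
      by_contra hk0
      rcases lt_or_gt_of_ne hk0 with hk1 | hk1
      · have : k * ((m : ℤ) * m') ≤ -1 * ((m : ℤ) * m') := mul_le_mul_of_nonneg_right (by omega) a5.le
        linarith
      · have : 1 * ((m : ℤ) * m') ≤ k * ((m : ℤ) * m') := mul_le_mul_of_nonneg_right (by omega) a5.le
        linarith
    rw [h6, zero_mul, zero_add] at h5
    have h7 : h * m' = h' * m := by
      have : (h : ℤ) * m' = h' * m := by linarith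
      exact_mod_cast this
    apply hne
    have h8 : m ∣ m' := by
      have : m ∣ h * m' := ⟨h', by rw [h7]; ring⟩
      exact hc.symm.dvd_of_dvd_mul_left this
    have h9 : m' ∣ m := by
      have : m' ∣ h' * m := ⟨h, by rw [← h7]; ring⟩
      exact hc'.symm.dvd_of_dvd_mul_left this
    have h10 : m = m' := Nat.dvd_antisymm h8 h9
    refine ⟨h10, ?_⟩
    rw [h10] at h7
    exact Nat.eq_of_mul_eq_mul_right (by omega) h7
  · have h2 := hall (m * m') _ (Nat.mul_pos hm hm') hmm hk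
    rcases (Nat.Prime.dvd_mul hp).1 h2 with h3 | h3
    · have := Nat.dvd_gcd h3 hpP
      rw [hmP] at this
      exact hp.one_lt.ne' (Nat.dvd_one.1 this)
    · have := Nat.dvd_gcd h3 hpP
      rw [hmP'] at this
      exact hp.one_lt.ne' (Nat.dvd_one.1 this)

/-! ### the large sieve for functions on the primes -/

theorem lsp_core {ι : Type} [DecidableEq ι] (R : Finset ι) (ξ : ι → ℝ) (K L M N : ℕ) (hK : 1 ≤ K)
    (hKL : K ≤ L) (hML : 2 * M ^ 4 ≤ L)
    (hsep : ∀ r ∈ R, ∀ s ∈ R, r ≠ s → lsSep K (ξ s - ξ r)) (b : ℕ → ℂ)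
    (hb : ∀ n, b n ≠ 0 → n.Prime ∧ M < n) :
    ∃ S : Finset ℕ, (∀ p ∈ S, p.Prime) ∧ S.card ≤ R.card ^ 2 ∧
      (∑ r ∈ R, ‖TT N b (ξ r)‖ ^ 2) * (1 / 2 * ((∏ p ∈ S, (1 - 1 / (p : ℝ))) * Real.log (M + 1))) ≤
        6 * ((N : ℝ) + L) * ∑ n ∈ Icc 1 N, ‖b n‖ ^ 2 := by
  classical
  have hL : 1 ≤ L := hK.trans hKL
  have hex : ∀ r s : ι, ∃ p : ℕ, p.Prime ∧ (¬ Near L (ξ s - ξ r) → ∀ (e : ℕ) (u : ℤ), 1 ≤ e →
      e ≤ M ^ 2 → |(ξ s - ξ r) - (u : ℝ) / e| < 1 / (L : ℝ) → p ∣ e) := by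
    intro r s
    by_cases h : Near L (ξ s - ξ r)
    · exact ⟨2, Nat.prime_two, fun h' => absurd h h'⟩
    · obtain ⟨p, hp, h1⟩ := excluded M L hL hML (ξ s - ξ r) h
      exact ⟨p, hp, fun _ => h1⟩
  choose pr hpr hpr2 using hex
  set S : Finset ℕ := (R ×ˢ R).image (fun x => pr x.1 x.2) with hS
  have hSp : ∀ p ∈ S, p.Prime := by
    intro p hp
    rw [hS, mem_image] at hp
    obtain ⟨x, _, rfl⟩ := hp
    exact hpr _ _
  have hSc : S.card ≤ R.card ^ 2 := by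
    rw [sq, ← card_product]
    exact card_image_le
  refine ⟨S, hSp, hSc, ?_⟩
  set P : ℕ := ∏ p ∈ S, p with hP
  set MM : Finset ℕ := (Icc 1 M).filter (fun m => Squarefree m ∧ Nat.Coprime m P) with hMM
  set FF : Finset (Σ _ : ℕ, ℕ) := MM.sigma (fun m => (range m).filter (fun h => Nat.Coprime h m)) with hFF
  set ξ' : ι × (Σ _ : ℕ, ℕ) → ℝ := fun x => ξ x.1 + (x.2.2 : ℝ) / x.2.1 with hξ'
  have hsep' : ∀ r ∈ R ×ˢ FF, ∀ s ∈ R ×ˢ FF, r ≠ s → lsSep L (ξ' s - ξ' r) := by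
    rintro ⟨r, m, h⟩ hr ⟨s, m', h'⟩ hs hne
    simp only [hFF, hMM, mem_product, mem_sigma, mem_filter, mem_Icc, mem_range] at hr hs
    obtain ⟨hrR, ⟨⟨hm1, hmM⟩, _, hmP⟩, hh, hc⟩ := hr
    obtain ⟨hsR, ⟨⟨hm1', hmM'⟩, _, hmP'⟩, hh', hc'⟩ := hs
    simp only [hξ']
    refine sep_shift (P := P) hL hML hm1 hmM hmP hh hc hm1' hmM' hmP' hh' hc' ?_
    by_cases hrs : r = s
    · left
      refine ⟨by rw [hrs], ?_⟩
      rintro ⟨h1, h2⟩
      subst h1 h2 hrs
      exact hne rfl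
    · right
      refine ⟨pr r s, hpr r s, ?_, ?_⟩
      · rw [hP]
        apply dvd_prod_of_mem
        rw [hS, mem_image]
        exact ⟨(r, s), mem_product.2 ⟨hrR, hsR⟩, rfl⟩
      · apply hpr2 r s
        intro hnear
        exact not_sep_of_near (near_mono hK hKL hnear) (hsep r hrR s hsR hrs)
  have hmain := ls_general (R ×ˢ FF) ξ' L N hL hsep' b
  refine le_trans ?_ hmain
  rw [sum_product, sum_mul]
  apply sum_le_sum
  intro r _
  rw [hFF, sum_sigma]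
  have h1 : ∀ m ∈ MM, ‖TT N b (ξ r)‖ ^ 2 * (m : ℝ)⁻¹ ≤
      ∑ h ∈ (range m).filter (fun h => Nat.Coprime h m),
        ‖∑ n ∈ Icc 1 N, b n * ee (n * ξ' (r, ⟨m, h⟩))‖ ^ 2 := by
    intro m hm
    rw [hMM, mem_filter, mem_Icc] at hm
    refine TT_le N b (ξ r) m hm.2.1 ?_
    intro n hn
    obtain ⟨hn1, hn2⟩ := hb n hn
    rw [hn1.coprime_iff_not_dvd]
    intro hd
    have := Nat.le_of_dvd (by omega) hd
    omega
  refine le_trans ?_ (sum_le_sum h1)
  rw [← mul_sum]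
  apply mul_le_mul_of_nonneg_left _ (by positivity)
  have h2 := harm_coprime M S hSp
  have h3 := Pool.Agent.Helper923.PPS.sum_inv_le_two_mul P M
  have h4 : Real.log (M + 1) ≤ ∑ n ∈ Icc 1 M, (n : ℝ)⁻¹ := by
    have := log_add_one_le_harmonic M
    rw [harmonic_eq_sum_Icc] at this
    push_cast at this
    exact this
  have h5 : 0 ≤ ∏ p ∈ S, (1 - 1 / (p : ℝ)) := by
    apply prod_nonneg
    intro p hp
    have : (1 : ℝ) ≤ p := by exact_mod_cast (hSp p hp).one_lt.le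
    rw [sub_nonneg, div_le_one (by linarith)]
    exact this
  have h6 := mul_le_mul_of_nonneg_left h4 h5
  rw [← hP] at h2
  rw [← hMM] at h3
  linarith

theorem sum_primes_le {C : ℝ} (hC : ∀ (a q N : ℕ), 2 ≤ N → (q = 1 ∨ q.Prime) →
    (((Finset.range N).filter (fun k => (a + k * q).Prime)).card : ℝ) ≤ C * N / Real.log N)
    {N : ℕ} (hN : 2 ≤ N) (b : ℕ → ℂ) (hb : ∀ n, ¬ n.Prime → b n = 0) (hb1 : ∀ n, ‖b n‖ ≤ 1) :
    ∑ n ∈ Icc 1 N, ‖b n‖ ^ 2 ≤ C * N / Real.log N := by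
  classical
  have h1 := hC 1 1 N hN (Or.inl rfl)
  refine le_trans ?_ h1
  have h2 : ∑ n ∈ Icc 1 N, ‖b n‖ ^ 2 ≤ ∑ n ∈ Icc 1 N, (if n.Prime then (1 : ℝ) else 0) := by
    apply sum_le_sum
    intro n _
    split_ifs with h
    · have := hb1 n
      nlinarith [norm_nonneg (b n)]
    · rw [hb n h]; simp
  refine h2.trans ?_
  rw [← sum_filter, sum_const, nsmul_eq_mul, mul_one]
  norm_cast
  apply card_le_card_of_injOn (fun n => n - 1)
  · intro n hn
    rw [mem_coe, mem_filter, mem_Icc] at hn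
    rw [mem_coe, mem_filter, mem_range]
    show n - 1 < N ∧ (1 + (n - 1) * 1).Prime
    refine ⟨by omega, ?_⟩
    have : 1 + (n - 1) * 1 = n := by omega
    rw [this]
    exact hn.2
  · intro n hn m hm hnm
    rw [mem_coe, mem_filter, mem_Icc] at hn hm
    simp only at hnm
    omega

/-- **The large sieve for functions on the primes.** -/
theorem lsp : ∃ C : ℝ, 0 < C ∧ ∀ (N : ℕ), 2 ≤ N → ∀ (ι : Type) [DecidableEq ι] (R : Finset ι)
    (ξ : ι → ℝ), R.Nonempty → (∀ r ∈ R, ∀ s ∈ R, r ≠ s → lsSep N (ξ s - ξ r)) → ∀ b : ℕ → ℂ,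
    (∀ n, ¬ n.Prime → b n = 0) → (∀ n, ‖b n‖ ≤ 1) →
    ∑ r ∈ R, ‖TT N b (ξ r)‖ ^ 2 ≤ C * Real.log (2 * R.card) * ((N : ℝ) / Real.log N) ^ 2 := by
  classical
  obtain ⟨c, hc0, hc⟩ := prod_primes_ge
  obtain ⟨C, hC1, hC⟩ := Pool.Agent.Helper923.PPS.brun_titchmarsh
  refine ⟨2 * (240 * C / c) + 600, by positivity, ?_⟩
  intro N hN ι _ R ξ hR hsep b hb hb1
  have hN0 : (0 : ℝ) < N := by exact_mod_cast (by omega : 0 < N)
  have hlN : 0 < Real.log N := Real.log_pos (by exact_mod_cast (by omega : 1 < N))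
  have hr1 : 1 ≤ R.card := card_pos.2 hR
  have hr1' : (1 : ℝ) ≤ R.card := by exact_mod_cast hr1
  have hl2 : 0.69 < Real.log 2 := by have := Real.log_two_gt_d9; linarith
  have hlR : Real.log 2 ≤ Real.log (2 * R.card) := Real.log_le_log (by norm_num) (by linarith)
  set M : ℕ := Nat.sqrt (Nat.sqrt (N / 2)) with hM
  have hM4 : M ^ 4 ≤ N / 2 := by
    calc M ^ 4 = (M ^ 2) ^ 2 := by ring
      _ ≤ (Nat.sqrt (N / 2)) ^ 2 := Nat.pow_le_pow_left (Nat.sqrt_le' _) 2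
      _ ≤ N / 2 := Nat.sqrt_le' _
  have hM1 : 1 ≤ M := by
    rw [hM, Nat.le_sqrt, Nat.le_sqrt]
    omega
  have hM5 : N ≤ (M + 1) ^ 5 := by
    have a1 : Nat.sqrt (N / 2) < (M + 1) ^ 2 := Nat.lt_succ_sqrt' _
    have a2 : N / 2 < (Nat.sqrt (N / 2) + 1) ^ 2 := Nat.lt_succ_sqrt' _
    have a3 : (Nat.sqrt (N / 2) + 1) ^ 2 ≤ ((M + 1) ^ 2) ^ 2 := Nat.pow_le_pow_left (by omega) 2
    have a4 : N ≤ 2 * ((M + 1) ^ 2) ^ 2 := by omega
    calc N ≤ 2 * ((M + 1) ^ 2) ^ 2 := a4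
      _ ≤ (M + 1) * ((M + 1) ^ 2) ^ 2 := Nat.mul_le_mul_right _ (by omega)
      _ = (M + 1) ^ 5 := by ring
  have hlM : Real.log N ≤ 5 * Real.log (M + 1) := by
    have : (N : ℝ) ≤ ((M : ℝ) + 1) ^ 5 := by exact_mod_cast hM5
    calc Real.log N ≤ Real.log (((M : ℝ) + 1) ^ 5) := Real.log_le_log hN0 this
      _ = _ := by rw [Real.log_pow]; norm_num
  have hM0 : (1 : ℝ) ≤ M := by exact_mod_cast hM1
  have hlM0 : 0 < Real.log (M + 1) := Real.log_pos (by linarith)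
  set b1 : ℕ → ℂ := fun n => if M < n then b n else 0 with hb1def
  set b2 : ℕ → ℂ := fun n => if M < n then 0 else b n with hb2def
  have hsplit : ∀ x, TT N b x = TT N b1 x + TT N b2 x := by
    intro x
    unfold TT
    rw [← sum_add_distrib]
    apply sum_congr rfl
    intro n _
    simp only [hb1def, hb2def]
    split_ifs <;> ring
  have hb11 : ∀ n, ‖b1 n‖ ≤ 1 := by
    intro n; simp only [hb1def]; split_ifs
    · exact hb1 n
    · simp
  have hb21 : ∀ n, ‖b2 n‖ ≤ 1 := by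
    intro n; simp only [hb2def]; split_ifs
    · simp
    · exact hb1 n
  -- the large primes
  have hbig : ∑ r ∈ R, ‖TT N b1 (ξ r)‖ ^ 2 ≤ 240 * C / c * Real.log (2 * R.card) * ((N : ℝ) / Real.log N) ^ 2 := by
    obtain ⟨S, hSp, hSc, hcore⟩ := lsp_core R ξ N N M N (by omega) le_rfl (by omega) hsep b1 (by
      intro n hn
      simp only [hb1def] at hn
      split_ifs at hn with h
      · refine ⟨?_, h⟩
        by_contra hnp
        exact hn (hb n hnp)
      · exact absurd rfl hn)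
    set k : ℕ := max 3 (R.card ^ 2) with hk
    have hprod := hc k S (le_max_left _ _) (hSc.trans (le_max_right _ _)) hSp
    have hk3 : 3 ≤ k := le_max_left _ _
    have hk0 : (0 : ℝ) < k := by exact_mod_cast (by omega : 0 < k)
    have hlk0 : 0 < Real.log k := Real.log_pos (by exact_mod_cast (by omega : 1 < k))
    have hk2 : (k : ℝ) ≤ (2 * R.card) ^ 2 := by
      have : k ≤ (2 * R.card) ^ 2 := by
        rw [hk, max_le_iff]
        constructor
        · nlinarith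
        · nlinarith
      exact_mod_cast this
    have hlk : Real.log k ≤ 2 * Real.log (2 * R.card) := by
      calc Real.log k ≤ Real.log ((2 * (R.card : ℝ)) ^ 2) := Real.log_le_log hk0 hk2
        _ = _ := by rw [Real.log_pow]; norm_num
    have hX0 : 0 ≤ ∑ r ∈ R, ‖TT N b1 (ξ r)‖ ^ 2 := sum_nonneg fun _ _ => by positivity
    have hsq := sum_primes_le hC hN b1 (by
      intro n hn
      simp only [hb1def]
      split_ifs
      · exact hb n hn
      · rfl) hb11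
    set X := ∑ r ∈ R, ‖TT N b1 (ξ r)‖ ^ 2 with hX
    set Y := Real.log (2 * R.card) with hY
    have hY0 : 0 < Y := by linarith
    have s1 : X * (c / (20 * Y) * Real.log N) ≤ 12 * N * (C * N / Real.log N) := by
      have t1 : c / (20 * Y) * Real.log N ≤
          1 / 2 * ((∏ p ∈ S, (1 - 1 / (p : ℝ))) * Real.log (M + 1)) := by
        have t2 : c / (2 * Y) ≤ ∏ p ∈ S, (1 - 1 / (p : ℝ)) :=
          le_trans (div_le_div_of_nonneg_left hc0.le hlk0 hlk) hprod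
        have t3 : c / (2 * Y) * (Real.log N / 5) ≤ (∏ p ∈ S, (1 - 1 / (p : ℝ))) * Real.log (M + 1) := by
          apply mul_le_mul t2 (by linarith) (by positivity)
          exact le_trans (by positivity) t2
        have t4 : c / (20 * Y) * Real.log N = 1 / 2 * (c / (2 * Y) * (Real.log N / 5)) := by
          field_simp
          ring
        rw [t4]
        linarith
      calc X * (c / (20 * Y) * Real.log N) ≤ _ := mul_le_mul_of_nonneg_left t1 hX0
        _ ≤ 6 * ((N : ℝ) + N) * ∑ n ∈ Icc 1 N, ‖b1 n‖ ^ 2 := hcore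
        _ ≤ 6 * ((N : ℝ) + N) * (C * N / Real.log N) := mul_le_mul_of_nonneg_left hsq (by positivity)
        _ = _ := by ring
    have s2 : 240 * C / c * Y * ((N : ℝ) / Real.log N) ^ 2 =
        (12 * N * (C * N / Real.log N)) / (c / (20 * Y) * Real.log N) := by
      field_simp
      ring
    rw [s2, le_div_iff₀ (by positivity)]
    exact s1
  -- the small primes
  have hsmall : ∑ r ∈ R, ‖TT N b2 (ξ r)‖ ^ 2 ≤ 300 * Real.log (2 * R.card) * ((N : ℝ) / Real.log N) ^ 2 := by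
    have h1 := ls_general R ξ N N (by omega) hsep b2
    have h2 : ∑ n ∈ Icc 1 N, ‖b2 n‖ ^ 2 ≤ M := by
      calc ∑ n ∈ Icc 1 N, ‖b2 n‖ ^ 2 ≤ ∑ n ∈ Icc 1 N, (if n ≤ M then (1 : ℝ) else 0) := by
            apply sum_le_sum
            intro n _
            split_ifs with h
            · have := hb21 n
              nlinarith [norm_nonneg (b2 n)]
            · have : b2 n = 0 := by simp only [hb2def]; rw [if_pos (by omega)]
              rw [this]; simp
        _ = (((Icc 1 N).filter (fun n => n ≤ M)).card : ℝ) := by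
            rw [← sum_filter, sum_const, nsmul_eq_mul, mul_one]
        _ ≤ ((Icc 1 M).card : ℝ) := by
            norm_cast
            apply card_le_card
            intro n hn
            rw [mem_filter, mem_Icc] at hn
            rw [mem_Icc]
            omega
        _ = M := by rw [Nat.card_Icc]; simp
    have h3 : ∑ r ∈ R, ‖TT N b2 (ξ r)‖ ^ 2 ≤ 12 * N * M := by
      calc ∑ r ∈ R, ‖TT N b2 (ξ r)‖ ^ 2 ≤ 6 * ((N : ℝ) + N) * ∑ n ∈ Icc 1 N, ‖b2 n‖ ^ 2 := h1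
        _ ≤ 6 * ((N : ℝ) + N) * M := mul_le_mul_of_nonneg_left h2 (by positivity)
        _ = _ := by ring
    have h4 : (M : ℝ) * Real.log N ^ 2 ≤ 13 * N := by
      have k1 : Real.log (M + 1) ≤ M := by
        have := Real.log_le_sub_one_of_pos (show (0 : ℝ) < M + 1 by positivity)
        linarith
      have k2 : Real.log N ≤ 5 * M := by linarith
      have k3 : Real.log N ^ 2 ≤ (5 * M) ^ 2 := pow_le_pow_left₀ hlN.le k2 2
      have k4 : (M : ℝ) ^ 4 ≤ N / 2 := by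
        have : 2 * M ^ 4 ≤ N := by omega
        have : (2 : ℝ) * M ^ 4 ≤ N := by exact_mod_cast this
        linarith
      calc (M : ℝ) * Real.log N ^ 2 ≤ M * (5 * M) ^ 2 := mul_le_mul_of_nonneg_left k3 (by positivity)
        _ = 25 * M ^ 3 := by ring
        _ ≤ 25 * M ^ 4 := by
            have : (M : ℝ) ^ 3 ≤ M ^ 4 := pow_le_pow_right₀ hM0 (by norm_num)
            linarith
        _ ≤ 13 * N := by linarith
    refine h3.trans ?_
    have h5 : 12 * (N : ℝ) * M ≤ 156 * ((N : ℝ) / Real.log N) ^ 2 := by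
      rw [div_pow, mul_div_assoc', le_div_iff₀ (by positivity)]
      nlinarith
    refine h5.trans ?_
    apply mul_le_mul_of_nonneg_right _ (by positivity)
    linarith
  calc ∑ r ∈ R, ‖TT N b (ξ r)‖ ^ 2 ≤ ∑ r ∈ R, (2 * ‖TT N b1 (ξ r)‖ ^ 2 + 2 * ‖TT N b2 (ξ r)‖ ^ 2) := by
        apply sum_le_sum
        intro r _
        rw [hsplit]
        have := norm_add_le (TT N b1 (ξ r)) (TT N b2 (ξ r))
        calc ‖TT N b1 (ξ r) + TT N b2 (ξ r)‖ ^ 2 ≤ (‖TT N b1 (ξ r)‖ + ‖TT N b2 (ξ r)‖) ^ 2 :=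
              pow_le_pow_left₀ (norm_nonneg _) this 2
          _ ≤ _ := by nlinarith [sq_nonneg (‖TT N b1 (ξ r)‖ - ‖TT N b2 (ξ r)‖)]
    _ = 2 * ∑ r ∈ R, ‖TT N b1 (ξ r)‖ ^ 2 + 2 * ∑ r ∈ R, ‖TT N b2 (ξ r)‖ ^ 2 := by
        rw [sum_add_distrib, mul_sum, mul_sum]
    _ ≤ 2 * (240 * C / c * Real.log (2 * R.card) * ((N : ℝ) / Real.log N) ^ 2) +
        2 * (300 * Real.log (2 * R.card) * ((N : ℝ) / Real.log N) ^ 2) := by linarith
    _ = _ := by ring

end Pool.Agent.H90.ST
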