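import Pool.Agent.H90.ST.LSP
import Pool.Graph.R_seed8.R479.DA.Lim

/-! # The large values of exponential sums over the primes with arbitrary bounded coefficients

For every `ε > 0` there is `B` such that for every `N` and all coefficients bounded by one the real
numbers `x` modulo one with `|∑_{p ≤ N} b(p) e(p x)| ≥ ε N / log N` are in at most `B` cells of length
`1 / N`.  So the `x` for which this holds for infinitely many `N` form a set of Hausdorff dimension zero.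
-/

set_option autoImplicit false

namespace Pool.Agent.H90.ST

open Finset Filter Topology Pool.Agent.Helper112

theorem sep_of_lt {N : ℕ} {x : ℝ} (h1 : 1 / (N : ℝ) ≤ x) (h2 : x ≤ 1 - 1 / (N : ℝ)) (hN : 1 ≤ N) :
    lsSep N x := by
  have hN0 : (0 : ℝ) < 1 / (N : ℝ) := by
    have : (0 : ℝ) < N := by exact_mod_cast hN
    positivity
  have : Int.fract x = x := Int.fract_eq_self.2 ⟨by linarith, by linarith⟩
  unfold lsSep
  rw [this]
  exact ⟨h1, h2⟩

theorem few_of_sep {N : ℕ} (hN : 2 ≤ N) {C : ℝ} (hC0 : 0 < C)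
    (hC : ∀ (ι : Type) [DecidableEq ι] (R : Finset ι)
      (ξ : ι → ℝ), R.Nonempty → (∀ r ∈ R, ∀ s ∈ R, r ≠ s → lsSep N (ξ s - ξ r)) → ∀ b : ℕ → ℂ,
      (∀ n, ¬ n.Prime → b n = 0) → (∀ n, ‖b n‖ ≤ 1) →
      ∑ r ∈ R, ‖TT N b (ξ r)‖ ^ 2 ≤ C * Real.log (2 * R.card) * ((N : ℝ) / Real.log N) ^ 2)
    {ε : ℝ} (hε : 0 < ε) (J : Finset ℕ) (ξ : ℕ → ℝ)
    (hsep : ∀ r ∈ J, ∀ s ∈ J, r ≠ s → lsSep N (ξ s - ξ r)) (b : ℕ → ℂ)
    (hb : ∀ n, ¬ n.Prime → b n = 0) (hb1 : ∀ n, ‖b n‖ ≤ 1)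
    (hlarge : ∀ r ∈ J, ε * ((N : ℝ) / Real.log N) ≤ ‖TT N b (ξ r)‖) :
    (J.card : ℝ) ≤ 8 * C ^ 2 / ε ^ 4 := by
  rcases J.eq_empty_or_nonempty with hJ | hJ
  · rw [hJ]; simp; positivity
  have hN0 : (0 : ℝ) < N := by exact_mod_cast (by omega : 0 < N)
  have hlN : 0 < Real.log N := Real.log_pos (by exact_mod_cast (by omega : 1 < N))
  have h1 := hC ℕ J ξ hJ hsep b hb hb1
  set L : ℝ := (N : ℝ) / Real.log N with hL
  have hL0 : 0 < L := by positivity
  have hr0 : (0 : ℝ) < J.card := by exact_mod_cast card_pos.2 hJ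
  have h2 : (J.card : ℝ) * (ε * L) ^ 2 ≤ C * Real.log (2 * J.card) * L ^ 2 := by
    refine le_trans ?_ h1
    rw [← nsmul_eq_mul, ← sum_const]
    apply sum_le_sum
    intro r hr
    exact pow_le_pow_left₀ (by positivity) (hlarge r hr) 2
  have h3 : (J.card : ℝ) * ε ^ 2 ≤ C * Real.log (2 * J.card) := by
    have : (J.card : ℝ) * ε ^ 2 * L ^ 2 ≤ C * Real.log (2 * J.card) * L ^ 2 := by
      calc (J.card : ℝ) * ε ^ 2 * L ^ 2 = (J.card : ℝ) * (ε * L) ^ 2 := by ring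
        _ ≤ _ := h2
    exact le_of_mul_le_mul_right this (by positivity)
  have h4 : Real.log (2 * J.card) ≤ 2 * √(2 * J.card) := by
    have k1 : (0 : ℝ) < √(2 * J.card) := Real.sqrt_pos.2 (by positivity)
    have k2 : Real.log (2 * J.card) = 2 * Real.log (√(2 * J.card)) := by
      rw [Real.log_sqrt (by positivity)]
      ring
    rw [k2]
    have := Real.log_le_sub_one_of_pos k1
    linarith
  have h5 : (J.card : ℝ) * ε ^ 2 ≤ 2 * C * √(2 * J.card) := by
    calc (J.card : ℝ) * ε ^ 2 ≤ C * Real.log (2 * J.card) := h3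
      _ ≤ C * (2 * √(2 * J.card)) := mul_le_mul_of_nonneg_left h4 hC0.le
      _ = _ := by ring
  have h6 : ((J.card : ℝ) * ε ^ 2) ^ 2 ≤ (2 * C * √(2 * J.card)) ^ 2 :=
    pow_le_pow_left₀ (by positivity) h5 2
  rw [mul_pow (2 * C), Real.sq_sqrt (by positivity)] at h6
  rw [le_div_iff₀ (by positivity)]
  have h7 : (J.card : ℝ) * (J.card * ε ^ 4) ≤ J.card * (8 * C ^ 2) := by
    calc (J.card : ℝ) * (J.card * ε ^ 4) = ((J.card : ℝ) * ε ^ 2) ^ 2 := by ring
      _ ≤ _ := h6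
      _ = _ := by ring
  exact le_of_mul_le_mul_left h7 hr0

open Classical in
/-- the cells with large values -/
noncomputable def cells (N : ℕ) (b : ℕ → ℂ) (ε : ℝ) : Finset ℕ :=
  (range N).filter (fun j => ∃ x : ℝ, (j : ℝ) / N ≤ x ∧ x < ((j : ℝ) + 1) / N ∧
    ε * ((N : ℝ) / Real.log N) ≤ ‖TT N b x‖)

/-- **Few cells.** -/
theorem few_cells {ε : ℝ} (hε : 0 < ε) : ∃ B : ℕ, ∀ N : ℕ, 2 ≤ N → ∀ b : ℕ → ℂ,
    (∀ n, ¬ n.Prime → b n = 0) → (∀ n, ‖b n‖ ≤ 1) → (cells N b ε).card ≤ B := by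
  classical
  obtain ⟨C, hC0, hC⟩ := lsp
  set B0 : ℕ := ⌊8 * C ^ 2 / ε ^ 4⌋₊ with hB0
  refine ⟨1 + (B0 + B0), fun N hN b hb hb1 => ?_⟩
  have hN0 : (0 : ℝ) < N := by exact_mod_cast (by omega : 0 < N)
  have hex : ∀ j : ℕ, ∃ x : ℝ, j ∈ cells N b ε → (j : ℝ) / N ≤ x ∧ x < ((j : ℝ) + 1) / N ∧
      ε * ((N : ℝ) / Real.log N) ≤ ‖TT N b x‖ := by
    intro j
    by_cases hj : j ∈ cells N b ε
    · obtain ⟨x, hx⟩ := (mem_filter.1 hj).2
      exact ⟨x, fun _ => hx⟩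
    · exact ⟨0, fun h => absurd h hj⟩
  choose ξ hξ using hex
  -- separation of cells of the same parity
  have hs1 : ∀ r s : ℕ, r ∈ cells N b ε → s ∈ cells N b ε → 1 ≤ r → r + 2 ≤ s →
      1 / (N : ℝ) ≤ ξ s - ξ r ∧ ξ s - ξ r ≤ 1 - 1 / (N : ℝ) := by
    intro r s hr hs h1 h2
    obtain ⟨a1, a2, _⟩ := hξ r hr
    obtain ⟨b1, b2, _⟩ := hξ s hs
    have hsN : s < N := mem_range.1 (mem_filter.1 hs).1
    have c1 : (r : ℝ) + 2 ≤ s := by exact_mod_cast h2
    have c2 : (s : ℝ) + 1 ≤ N := by exact_mod_cast hsN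
    have c3 : (1 : ℝ) ≤ r := by exact_mod_cast h1
    constructor
    · have : 1 / (N : ℝ) ≤ (s : ℝ) / N - ((r : ℝ) + 1) / N := by
        rw [← sub_div]
        exact div_le_div_of_nonneg_right (by linarith) hN0.le
      linarith
    · have : ((s : ℝ) + 1) / N - (r : ℝ) / N ≤ 1 - 1 / (N : ℝ) := by
        rw [← sub_div, le_sub_iff_add_le, ← add_div, div_le_one hN0]
        linarith
      linarith
  have hpar : ∀ e : ℕ, ((cells N b ε).filter (fun j => 1 ≤ j ∧ j % 2 = e)).card ≤ B0 := by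
    intro e
    apply Nat.le_floor
    refine few_of_sep hN hC0 (fun ι _ => hC N hN ι) hε _ ξ ?_ b hb hb1 ?_
    · intro r hr s hs hne
      rw [mem_filter] at hr hs
      rcases lt_or_gt_of_ne hne with h | h
      · obtain ⟨k1, k2⟩ := hs1 r s hr.1 hs.1 hr.2.1 (by omega)
        exact sep_of_lt k1 k2 (by omega)
      · obtain ⟨k1, k2⟩ := hs1 s r hs.1 hr.1 hs.2.1 (by omega)
        have := lsSep_neg (by omega : 1 ≤ N) (sep_of_lt k1 k2 (by omega))
        rw [neg_sub] at this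
        exact this.1
    · intro r hr
      exact (hξ r (mem_filter.1 hr).1).2.2
  have hcov : cells N b ε ⊆ {0} ∪ ((cells N b ε).filter (fun j => 1 ≤ j ∧ j % 2 = 0) ∪
      (cells N b ε).filter (fun j => 1 ≤ j ∧ j % 2 = 1)) := by
    intro j hj
    rw [mem_union, mem_union, mem_filter, mem_filter, mem_singleton]
    rcases Nat.eq_zero_or_pos j with h | h
    · exact Or.inl h
    · rcases Nat.mod_two_eq_zero_or_one j with h2 | h2
      · exact Or.inr (Or.inl ⟨hj, h, h2⟩)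
      · exact Or.inr (Or.inr ⟨hj, h, h2⟩)
  refine (card_le_card hcov).trans ((card_union_le _ _).trans ?_)
  refine add_le_add (by simp) ((card_union_le _ _).trans (add_le_add (hpar 0) (hpar 1)))

/-! ### between the scales -/

theorem TT_diff (N H k : ℕ) (b : ℕ → ℂ) (hb : ∀ n, ¬ n.Prime → b n = 0) (hb1 : ∀ n, ‖b n‖ ≤ 1)
    (hk : k ≤ H) (x : ℝ) :
    ‖TT (N + k) b x - TT N b x‖ ≤ (((range H).filter (fun i => ((N + 1) + i * 1).Prime)).card : ℝ) := by
  classical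
  have h1 : TT (N + k) b x - TT N b x = ∑ n ∈ Ioc N (N + k), b n * ee (n * x) := by
    unfold TT
    rw [sub_eq_iff_eq_add, ← sum_union]
    · congr 1
      ext n
      simp only [mem_union, mem_Ioc, mem_Icc]
      omega
    · rw [disjoint_left]
      intro n hn1 hn2
      rw [mem_Ioc] at hn1
      rw [mem_Icc] at hn2
      omega
  rw [h1]
  have h2 : ‖∑ n ∈ Ioc N (N + k), b n * ee (n * x)‖ ≤ ∑ n ∈ Ioc N (N + k), (if n.Prime then (1 : ℝ) else 0) := by
    refine norm_sum_le_of_le _ fun n _ => ?_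
    rw [norm_mul, ls_norm_ee, mul_one]
    split_ifs with h
    · exact hb1 n
    · rw [hb n h]; simp
  refine h2.trans ?_
  rw [← sum_filter, sum_const, nsmul_eq_mul, mul_one]
  norm_cast
  apply card_le_card_of_injOn (fun n => n - (N + 1))
  · intro n hn
    rw [mem_coe, mem_filter, mem_Ioc] at hn
    rw [mem_coe, mem_filter, mem_range]
    show n - (N + 1) < H ∧ ((N + 1) + (n - (N + 1)) * 1).Prime
    refine ⟨by omega, ?_⟩
    have : (N + 1) + (n - (N + 1)) * 1 = n := by omega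
    rw [this]
    exact hn.2
  · intro n hn m hm hnm
    rw [mem_coe, mem_filter, mem_Ioc] at hn hm
    simp only at hnm
    omega

/-- Every large scale is close to a scale of the grid. -/
theorem grid {ε : ℝ} (hε : 0 < ε) : ∃ t i₀ : ℕ, ∀ b : ℕ → ℂ,
    (∀ n, ¬ n.Prime → b n = 0) → (∀ n, ‖b n‖ ≤ 1) → ∀ i N : ℕ, i₀ ≤ i → 2 ^ i ≤ N → N < 2 ^ (i + 1) →
    ∀ x : ℝ, ε * ((N : ℝ) / Real.log N) ≤ ‖TT N b x‖ →
    ∃ j < 2 ^ t, ε / 4 * (((2 ^ i + j * 2 ^ (i - t) : ℕ) : ℝ) / Real.log ((2 ^ i + j * 2 ^ (i - t) : ℕ) : ℝ)) ≤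
      ‖TT (2 ^ i + j * 2 ^ (i - t)) b x‖ := by
  obtain ⟨C, hC1, hC⟩ := Pool.Agent.Helper923.PPS.brun_titchmarsh
  obtain ⟨t, ht⟩ := pow_unbounded_of_one_lt (4 * C / ε) (show (1 : ℝ) < 2 by norm_num)
  refine ⟨t, 2 * t + 1, fun b hb hb1 i N hi hN1 hN2 x hx => ?_⟩
  set H : ℕ := 2 ^ (i - t) with hH
  have hH1 : 2 ≤ H := by
    calc 2 = 2 ^ 1 := rfl
      _ ≤ 2 ^ (i - t) := Nat.pow_le_pow_right (by norm_num) (by omega)
  have hHt : 2 ^ t * H = 2 ^ i := by
    rw [hH, ← pow_add]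
    congr 1
    omega
  set j : ℕ := (N - 2 ^ i) / H with hj
  have hjt : j < 2 ^ t := by
    rw [hj, Nat.div_lt_iff_lt_mul (by omega), hHt]
    rw [pow_succ] at hN2
    omega
  set N' : ℕ := 2 ^ i + j * H with hN'
  have hmod := Nat.div_add_mod (N - 2 ^ i) H
  have hlt := Nat.mod_lt (N - 2 ^ i) (show H > 0 by omega)
  have hjH : H * ((N - 2 ^ i) / H) = j * H := by rw [hj]; ring
  set k : ℕ := (N - 2 ^ i) % H with hk
  have hNk : N = N' + k := by rw [hN']; omega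
  refine ⟨j, hjt, ?_⟩
  have hd := TT_diff N' H k b hb hb1 hlt.le x
  rw [← hNk] at hd
  have hbt := hC (N' + 1) 1 H hH1 (Or.inl rfl)
  have hi1 : 1 ≤ i := by omega
  have h2i : 2 ≤ 2 ^ i := by
    calc 2 = 2 ^ 1 := rfl
      _ ≤ 2 ^ i := Nat.pow_le_pow_right (by norm_num) hi1
  have hN2' : 2 ≤ N := h2i.trans hN1
  have hN0 : (0 : ℝ) < N := by exact_mod_cast (by omega : 0 < N)
  have hlN : 0 < Real.log N := Real.log_pos (by exact_mod_cast (by omega : 1 < N))
  have hl2 : (0 : ℝ) < Real.log 2 := Real.log_pos (by norm_num)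
  have hlN2 : Real.log N ≤ (i + 1) * Real.log 2 := by
    have : (N : ℝ) ≤ (2 : ℝ) ^ (i + 1) := by exact_mod_cast hN2.le
    calc Real.log N ≤ Real.log ((2 : ℝ) ^ (i + 1)) := Real.log_le_log hN0 this
      _ = _ := by rw [Real.log_pow]; push_cast; ring
  -- the primes between N' and N
  have hsmall : C * H / Real.log H ≤ ε / 2 * ((N : ℝ) / Real.log N) := by
    have e1 : Real.log (H : ℝ) = ((i - t : ℕ) : ℝ) * Real.log 2 := by
      rw [hH]; push_cast; rw [Real.log_pow]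
    have e2 : ((i + 1 : ℕ) : ℝ) ≤ 2 * ((i - t : ℕ) : ℝ) := by
      have : i + 1 ≤ 2 * (i - t) := by omega
      exact_mod_cast this
    have e3 : (0 : ℝ) < ((i - t : ℕ) : ℝ) := by exact_mod_cast (by omega : 0 < i - t)
    have e4 : (2 : ℝ) ^ t * H = 2 ^ i := by exact_mod_cast hHt
    have e5 : (0 : ℝ) < H := by exact_mod_cast (by omega : 0 < H)
    have e6 : Real.log N ≤ 2 * Real.log H := by
      rw [e1]
      push_cast at e2
      calc Real.log N ≤ (i + 1) * Real.log 2 := hlN2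
        _ ≤ 2 * ((i - t : ℕ) : ℝ) * Real.log 2 := mul_le_mul_of_nonneg_right e2 hl2.le
        _ = _ := by ring
    have e7 : 0 < Real.log H := by rw [e1]; positivity
    have e8 : (2 : ℝ) ^ i ≤ N := by exact_mod_cast hN1
    have e9 : 4 * C ≤ 2 ^ t * ε := by
      rw [div_lt_iff₀ hε] at ht
      exact ht.le
    rw [← mul_div_assoc, div_le_div_iff₀ e7 hlN]
    calc C * H * Real.log N ≤ C * H * (2 * Real.log H) :=
          mul_le_mul_of_nonneg_left e6 (by positivity)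
      _ = (4 * C) * H / 2 * Real.log H := by ring
      _ ≤ (2 ^ t * ε) * H / 2 * Real.log H := by
          apply mul_le_mul_of_nonneg_right _ e7.le
          apply div_le_div_of_nonneg_right _ (by norm_num)
          exact mul_le_mul_of_nonneg_right e9 e5.le
      _ = ε / 2 * 2 ^ i * Real.log H := by rw [← e4]; ring
      _ ≤ ε / 2 * N * Real.log H := by
          apply mul_le_mul_of_nonneg_right _ e7.le
          exact mul_le_mul_of_nonneg_left e8 (by positivity)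
  have h1 : ε / 2 * ((N : ℝ) / Real.log N) ≤ ‖TT N' b x‖ := by
    have h3 : ‖TT N b x‖ ≤ ‖TT N b x - TT N' b x‖ + ‖TT N' b x‖ := by
      have := norm_add_le (TT N b x - TT N' b x) (TT N' b x)
      rwa [sub_add_cancel] at this
    linarith
  refine le_trans ?_ h1
  have hN'1 : 2 ≤ N' := by rw [hN']; omega
  have hN'0 : (0 : ℝ) < N' := by exact_mod_cast (by omega : 0 < N')
  have hlN' : 0 < Real.log N' := Real.log_pos (by exact_mod_cast (by omega : 1 < N'))
  have g1 : Real.log N ≤ 2 * Real.log N' := by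
    have : (N : ℝ) ≤ (N' : ℝ) ^ 2 := by
      have : N ≤ N' ^ 2 := by
        have k1 : N < 2 ^ i * 2 := by rwa [pow_succ] at hN2
        have k2 : 2 ^ i ≤ N' := by rw [hN']; omega
        nlinarith
      exact_mod_cast this
    calc Real.log N ≤ Real.log ((N' : ℝ) ^ 2) := Real.log_le_log hN0 this
      _ = _ := by rw [Real.log_pow]; norm_num
  have g2 : (N' : ℝ) ≤ N := by exact_mod_cast (by omega : N' ≤ N)
  have g3 : (N' : ℝ) / Real.log N' ≤ 2 * ((N : ℝ) / Real.log N) := by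
    rw [← mul_div_assoc, div_le_div_iff₀ hlN' hlN]
    nlinarith
  have : ε / 4 * ((N' : ℝ) / Real.log N') ≤ ε / 4 * (2 * ((N : ℝ) / Real.log N)) :=
    mul_le_mul_of_nonneg_left g3 (by positivity)
  linarith

end Pool.Agent.H90.ST
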