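import Pool.Agent.H90.ST.Univ
import Pool.Graph.R_pool_sql_team_seeded_3997aac3.Q255.SG.GK

/-! # Rotations: from the monomials to the continuous class functions and functions on the circle -/

set_option autoImplicit false

namespace Pool.Agent.H90.ST

open Finset Filter Topology Pool.Agent.Helper112 NumberField IsDedekindDomain
  Pool.Agent.H921R2.TatePole Pool.Agent.Q255.SG Q282.ST Pool.Agent.W350.EdgeV MeasureTheory
open scoped ENNReal

variable {K : Type} [Field K] [NumberField K] {n g : ℕ}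

open Classical in
/-- The symmetrised sum of a continuous function on the torus. -/
noncomputable def LR (t : HeightOneSpectrum (𝓞 K) → UnitAddTorus (Fin (2 * g))) (E : Finset ℕ)
    (q a : ℕ) (α : ℝ) (f : C(UnitAddTorus (Fin (2 * g)), ℂ)) (x : ℕ) : ℂ :=
  ∑ v ∈ VF K x, (if (below v : ℕ) ∈ E ∨ ¬ nm v ≡ a [MOD q] then 0 else
    (((2 * g).factorial : ℂ)⁻¹ * ∑ σ : Equiv.Perm (Fin (2 * g)), f (t v ∘ σ))) * ee (nm v * α)

theorem LR_add (t : HeightOneSpectrum (𝓞 K) → UnitAddTorus (Fin (2 * g))) (E : Finset ℕ)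
    (q a : ℕ) (α : ℝ) (f f' : C(UnitAddTorus (Fin (2 * g)), ℂ)) (x : ℕ) :
    LR t E q a α (f + f') x = LR t E q a α f x + LR t E q a α f' x := by
  unfold LR
  rw [← Finset.sum_add_distrib]
  refine Finset.sum_congr rfl fun v _ => ?_
  split_ifs
  · simp
  · simp only [ContinuousMap.add_apply, Finset.sum_add_distrib]
    ring

theorem LR_smul (t : HeightOneSpectrum (𝓞 K) → UnitAddTorus (Fin (2 * g))) (E : Finset ℕ)
    (q a : ℕ) (α : ℝ) (c : ℂ) (f : C(UnitAddTorus (Fin (2 * g)), ℂ)) (x : ℕ) :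
    LR t E q a α (c • f) x = c * LR t E q a α f x := by
  unfold LR
  rw [Finset.mul_sum]
  refine Finset.sum_congr rfl fun v _ => ?_
  split_ifs
  · simp
  · simp only [ContinuousMap.smul_apply, smul_eq_mul, ← Finset.mul_sum]
    ring

theorem norm_LR (t : HeightOneSpectrum (𝓞 K) → UnitAddTorus (Fin (2 * g))) (E : Finset ℕ)
    (q a : ℕ) (α : ℝ) (f : C(UnitAddTorus (Fin (2 * g)), ℂ)) (x : ℕ) :
    ‖LR t E q a α f x‖ ≤ ‖f‖ * (VF K x).card := by
  unfold LR
  have hsum : ∑ _v ∈ VF K x, ‖f‖ = ‖f‖ * (VF K x).card := by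
    rw [sum_const, nsmul_eq_mul]
    ring
  rw [← hsum]
  refine norm_sum_le_of_le _ fun v _ => ?_
  rw [norm_mul, ls_norm_ee, mul_one]
  split_ifs
  · rw [norm_zero]
    positivity
  · rw [norm_mul, norm_inv, Complex.norm_natCast]
    have h1 : ‖∑ σ : Equiv.Perm (Fin (2 * g)), f (t v ∘ σ)‖ ≤ (2 * g).factorial * ‖f‖ := by
      refine (norm_sum_le_of_le (n := fun _ => ‖f‖) _ fun σ _ => f.norm_coe_le_norm _).trans ?_
      rw [Finset.sum_const, Finset.card_univ, Fintype.card_perm, Fintype.card_fin, nsmul_eq_mul]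
    have h2 : (0 : ℝ) < (2 * g).factorial := by exact_mod_cast (2 * g).factorial_pos
    rw [inv_mul_le_iff₀ h2]
    exact h1

/-- a closedness lemma -/
theorem closed_aux {Y : Type*} [NormedAddCommGroup Y] (Λ : Y → ℕ → ℂ) (c : ℕ → ℝ)
    (hadd : ∀ f f' x, Λ (f + f') x = Λ f x + Λ f' x) {B : ℝ} (hB : 0 < B)
    (hn : ∀ f x, ‖Λ f x‖ ≤ B * ‖f‖ * c x) (hc : ∀ x, 0 ≤ c x) {f : Y}
    (hf : f ∈ closure {f : Y | Tendsto (fun x => Λ f x / (c x : ℂ)) atTop (𝓝 0)}) :
    Tendsto (fun x => Λ f x / (c x : ℂ)) atTop (𝓝 0) := by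
  rw [Metric.tendsto_atTop']
  intro ε hε
  obtain ⟨f', hf', hd⟩ := Metric.mem_closure_iff.1 hf (ε / (2 * B)) (by positivity)
  have h1 : Tendsto (fun x : ℕ => Λ f' x / (c x : ℂ)) atTop (𝓝 0) := hf'
  have h2 := (Metric.tendsto_nhds.1 h1 (ε / 2) (by positivity))
  obtain ⟨N, hN'⟩ := Filter.eventually_atTop.1 h2
  refine ⟨N, fun x hx => ?_⟩
  have h3 := hN' x hx.le
  rw [dist_zero_right] at h3 ⊢
  have h6 : Λ f x = Λ (f - f') x + Λ f' x := by
    rw [← hadd, sub_add_cancel]
  have h7 : ‖Λ (f - f') x / (c x : ℂ)‖ ≤ ε / 2 := by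
    rw [norm_div, Complex.norm_real, Real.norm_of_nonneg (hc x)]
    rcases (hc x).eq_or_lt with h0 | h0
    · rw [← h0, div_zero]; positivity
    rw [div_le_iff₀ h0]
    refine (hn _ _).trans ?_
    rw [dist_eq_norm] at hd
    calc B * ‖f - f'‖ * c x ≤ B * (ε / (2 * B)) * c x := by gcongr
      _ = ε / 2 * c x := by field_simp
  rw [h6, add_div]
  calc _ ≤ _ := norm_add_le _ _
    _ < ε / 2 + ε / 2 := by linarith
    _ = ε := by ring

theorem LR_zero (t : HeightOneSpectrum (𝓞 K) → UnitAddTorus (Fin (2 * g))) (E : Finset ℕ)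
    (q a : ℕ) (α : ℝ) (x : ℕ) : LR t E q a α 0 x = 0 := by
  have h := LR_add t E q a α 0 0 x
  rw [add_zero] at h
  exact left_eq_add.1 h

/-- The functions whose sums are small. -/
def SR (t : HeightOneSpectrum (𝓞 K) → UnitAddTorus (Fin (2 * g))) (E : Finset ℕ)
    (q a : ℕ) (α : ℝ) : Submodule ℂ C(UnitAddTorus (Fin (2 * g)), ℂ) where
  carrier := {f | Tendsto (fun x : ℕ => LR t E q a α f x / (((VF K x).card : ℝ) : ℂ)) atTop (𝓝 0)}
  add_mem' {f f'} hf hf' := by
    have h := Tendsto.add hf hf'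
    rw [add_zero] at h
    refine h.congr fun x => ?_
    rw [LR_add, add_div]
  zero_mem' := by
    show Tendsto _ _ _
    simp only [LR_zero, zero_div]
    exact tendsto_const_nhds
  smul_mem' c f hf := by
    have h := Tendsto.const_mul c hf
    rw [mul_zero] at h
    refine h.congr fun x => ?_
    rw [LR_smul, mul_div_assoc]

/-- Convergence to zero for the continuous functions on the torus. -/
theorem SR_eq_top {X : Set (MvPolynomial (Fin n) (𝓞 K))} (hg : 1 ≤ g)
    {β : HeightOneSpectrum (𝓞 K) → Fin (2 * g) → ℂ} {E : Finset ℕ} (q a : ℕ)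
    (hE : ∀ v, (below v : ℕ) ∉ E → IsFrob X g v (β v)) {α : ℝ} (hα : α ∉ TR)
    (t : HeightOneSpectrum (𝓞 K) → UnitAddTorus (Fin (2 * g)))
    (ht : ∀ v, (below v : ℕ) ∉ E → ∀ j, (AddCircle.toCircle (t v j) : ℂ) = unit v (β v) j) :
    SR t E q a α = ⊤ := by
  classical
  rw [eq_top_iff, ← UnitAddTorus.span_mFourier_closure_eq_top (d := Fin (2 * g))]
  refine Submodule.topologicalClosure_minimal _ ?_ ?_
  swap
  · refine isClosed_of_closure_subset fun f hf => ?_
    exact closed_aux (LR t E q a α) (fun x => ((VF K x).card : ℝ)) (LR_add t E q a α) one_pos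
      (fun f x => by rw [one_mul]; exact norm_LR t E q a α f x) (fun x => Nat.cast_nonneg _) hf
  rw [Submodule.span_le]
  rintro _ ⟨k, rfl⟩
  have hA := mono_mean hg q a hE k hα
  have h1 : ∀ x, LR t E q a α (UnitAddTorus.mFourier k) x =
      (((2 * g).factorial : ℂ)⁻¹) * ∑ v ∈ VF K x, am β E q a k v * ee (nm v * α) := by
    intro x
    unfold LR
    rw [Finset.mul_sum]
    refine Finset.sum_congr rfl fun v _ => ?_
    unfold am
    by_cases h1 : (below v : ℕ) ∈ E ∨ ¬ nm v ≡ a [MOD q]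
    · rw [if_pos h1, if_pos h1]
      ring
    · rw [if_neg h1, if_neg h1]
      rw [not_or] at h1
      have h2 : ∑ σ : Equiv.Perm (Fin (2 * g)), UnitAddTorus.mFourier k (t v ∘ σ) =
          mono k (unit v (β v)) := by
        unfold mono
        refine Finset.sum_congr rfl fun σ _ => ?_
        show ∏ j, fourier (k j) ((t v ∘ σ) j) = _
        refine Finset.prod_congr rfl fun j _ => ?_
        rw [fourier_apply, Function.comp_apply, AddCircle.toCircle_zsmul, Circle.coe_zpow,
          ht v h1.1]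
      rw [h2]
      ring
  show Tendsto (fun x : ℕ => LR t E q a α (UnitAddTorus.mFourier k) x /
    (((VF K x).card : ℝ) : ℂ)) atTop (𝓝 0)
  simp only [h1, mul_div_assoc]
  have h2 := hA.const_mul (((2 * g).factorial : ℂ)⁻¹)
  rw [mul_zero] at h2
  refine h2.congr fun x => ?_
  rw [Complex.ofReal_natCast]

theorem VF_mono {x y : ℕ} (h : x ≤ y) : VF K x ⊆ VF K y := by
  intro v hv
  rw [mem_VF] at hv ⊢
  omega

theorem bad_tendsto (E : Finset ℕ) (f : HeightOneSpectrum (𝓞 K) → ℂ) :
    Tendsto (fun x : ℕ => (∑ v ∈ VF K x, (if (below v : ℕ) ∈ E then f v else 0)) /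
      (((VF K x).card : ℝ) : ℂ)) atTop (𝓝 0) := by
  classical
  have hfin := bad_finite (K := K) E
  have h0 : Tendsto (fun x : ℕ => ((VF K x).card : ℝ)) atTop atTop := Pool.Agent.Q255.SG.GK.card_VF_tendsto
  rw [tendsto_zero_iff_norm_tendsto_zero]
  have h1 : Tendsto (fun x : ℕ => (∑ v ∈ hfin.toFinset, ‖f v‖) / ((VF K x).card : ℝ)) atTop (𝓝 0) :=
    tendsto_const_nhds.div_atTop h0
  refine squeeze_zero (fun _ => norm_nonneg _) (fun x => ?_) h1
  rw [norm_div, Complex.norm_real, Real.norm_of_nonneg (Nat.cast_nonneg _)]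
  apply div_le_div_of_nonneg_right _ (Nat.cast_nonneg _)
  rw [← sum_filter]
  refine (norm_sum_le _ _).trans ?_
  apply sum_le_sum_of_subset_of_nonneg
  · intro v hv
    rw [mem_filter] at hv
    rw [Set.Finite.mem_toFinset]
    exact hv.2
  · intro _ _ _; exact norm_nonneg _

/-- **The class functions, one frequency.** -/
theorem class_freq {X : Set (MvPolynomial (Fin n) (𝓞 K))} (hg : 1 ≤ g)
    {β : HeightOneSpectrum (𝓞 K) → Fin (2 * g) → ℂ} {E : Finset ℕ} (q a : ℕ)
    (hE : ∀ v, (below v : ℕ) ∉ E → IsFrob X g v (β v)) {α : ℝ} (hα : α ∉ TR)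
    {F : (Fin (2 * g) → ℂ) → ℂ} (hF : ContinuousOn F {z | ∀ j, ‖z j‖ = 1}) (hc : IsClass F) :
    Tendsto (fun x : ℕ => (∑ v ∈ (VF K x).filter (fun v => nm v ≡ a [MOD q]),
      F (unit v (β v)) * ee (nm v * α)) / (((VF K x).card : ℝ) : ℂ)) atTop (𝓝 0) := by
  classical
  have ht : ∀ v : HeightOneSpectrum (𝓞 K), ∃ t : UnitAddTorus (Fin (2 * g)),
      (below v : ℕ) ∉ E → ∀ j, (AddCircle.toCircle (t j) : ℂ) = unit v (β v) j := by
    intro v
    by_cases hv : (below v : ℕ) ∈ E
    · exact ⟨0, fun h => (h hv).elim⟩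
    · obtain ⟨t, ht⟩ := exists_torus _ (norm_unit (hE v hv))
      exact ⟨t, fun _ => ht⟩
  choose t ht using ht
  have hcont : Continuous fun s : UnitAddTorus (Fin (2 * g)) =>
      F fun j => (AddCircle.toCircle (s j) : ℂ) := by
    refine hF.comp_continuous ?_ fun s j => Circle.norm_coe _
    exact continuous_pi fun j =>
      continuous_subtype_val.comp (AddCircle.continuous_toCircle.comp (continuous_apply j))
  set f : C(UnitAddTorus (Fin (2 * g)), ℂ) := ⟨_, hcont⟩ with hf
  have h1 : f ∈ SR t E q a α := by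
    rw [SR_eq_top hg q a hE hα t ht]
    exact Submodule.mem_top
  have h2 : Tendsto (fun x : ℕ => LR t E q a α f x / (((VF K x).card : ℝ) : ℂ)) atTop (𝓝 0) := h1
  have h3 := bad_tendsto (K := K) E (fun v => (if nm v ≡ a [MOD q] then
    F (unit v (β v)) * ee (nm v * α) else 0))
  have h4 := h2.add h3
  rw [add_zero] at h4
  refine h4.congr fun x => ?_
  rw [← add_div, sum_filter]
  congr 1
  unfold LR
  rw [← Finset.sum_add_distrib]
  refine Finset.sum_congr rfl fun v _ => ?_
  by_cases hv : (below v : ℕ) ∈ E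
  · rw [if_pos (Or.inl hv), if_pos hv, zero_mul, zero_add]
  · rw [if_neg hv, add_zero]
    by_cases hq : nm v ≡ a [MOD q]
    · rw [if_neg (by rw [not_or, not_not]; exact ⟨hv, hq⟩), if_pos hq]
      congr 1
      have e1 : ∀ σ : Equiv.Perm (Fin (2 * g)), f (t v ∘ σ) = F (unit v (β v)) := by
        intro σ
        rw [← hc σ (unit v (β v))]
        show F (fun j => (AddCircle.toCircle ((t v ∘ σ) j) : ℂ)) = _
        congr 1
        funext j
        rw [Function.comp_apply, ht v hv, Function.comp_apply]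
      rw [Finset.sum_congr rfl fun σ _ => e1 σ, Finset.sum_const, Finset.card_univ,
        Fintype.card_perm, Fintype.card_fin, nsmul_eq_mul, ← mul_assoc, inv_mul_cancel₀, one_mul]
      exact_mod_cast (2 * g).factorial_ne_zero
    · rw [if_pos (Or.inr hq), if_neg hq, zero_mul]

/-! ### functions on the circle -/

theorem integral_fourier {k : ℤ} (hk : k ≠ 0) : ∫ t : UnitAddCircle, fourier k t = 0 :=
  integral_eq_zero_of_add_right_eq_neg (fourier_add_half_inv_index hk one_pos)

/-- the functional -/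
noncomputable def LC (w : HeightOneSpectrum (𝓞 K) → ℂ) (α : ℝ) (G : C(UnitAddCircle, ℂ)) (x : ℕ) : ℂ :=
  ∑ v ∈ VF K x, w v * (G ((nm v * α : ℝ) : UnitAddCircle) - ∫ y, G y)

theorem LC_add (w : HeightOneSpectrum (𝓞 K) → ℂ) (α : ℝ) (G G' : C(UnitAddCircle, ℂ)) (x : ℕ) :
    LC w α (G + G') x = LC w α G x + LC w α G' x := by
  unfold LC
  rw [← sum_add_distrib]
  refine sum_congr rfl fun v _ => ?_
  have : ∫ y, (G + G') y = (∫ y, G y) + ∫ y, G' y := by
    simp only [ContinuousMap.add_apply]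
    exact integral_add (G.continuous.integrable_of_hasCompactSupport (HasCompactSupport.of_compactSpace _))
      (G'.continuous.integrable_of_hasCompactSupport (HasCompactSupport.of_compactSpace _))
  rw [this, ContinuousMap.add_apply]
  ring

theorem LC_smul (w : HeightOneSpectrum (𝓞 K) → ℂ) (α : ℝ) (c : ℂ) (G : C(UnitAddCircle, ℂ)) (x : ℕ) :
    LC w α (c • G) x = c * LC w α G x := by
  unfold LC
  rw [mul_sum]
  refine sum_congr rfl fun v _ => ?_
  have : ∫ y, (c • G) y = c * ∫ y, G y := by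
    simp only [ContinuousMap.smul_apply, smul_eq_mul]
    exact integral_const_mul _ _
  rw [this, ContinuousMap.smul_apply, smul_eq_mul]
  ring

theorem norm_LC {w : HeightOneSpectrum (𝓞 K) → ℂ} {W : ℝ} (hw : ∀ v, ‖w v‖ ≤ W) (α : ℝ)
    (G : C(UnitAddCircle, ℂ)) (x : ℕ) : ‖LC w α G x‖ ≤ (2 * W) * ‖G‖ * (VF K x).card := by
  unfold LC
  rw [mul_comm _ ((VF K x).card : ℝ), ← nsmul_eq_mul, ← sum_const]
  refine norm_sum_le_of_le _ fun v _ => ?_
  rw [norm_mul]
  have hW : 0 ≤ W := (norm_nonneg _).trans (hw v)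
  have h1 : ‖∫ y, G y‖ ≤ ‖G‖ := by
    have := norm_integral_le_of_norm_le_const (μ := (volume : Measure UnitAddCircle))
      (Eventually.of_forall fun y => G.norm_coe_le_norm y)
    rw [measureReal_def, UnitAddCircle.measure_univ] at this
    simpa using this
  have h2 : ‖G ((nm v * α : ℝ) : UnitAddCircle) - ∫ y, G y‖ ≤ 2 * ‖G‖ := by
    refine (norm_sub_le _ _).trans ?_
    have := G.norm_coe_le_norm ((nm v * α : ℝ) : UnitAddCircle)
    linarith
  calc ‖w v‖ * ‖G ((nm v * α : ℝ) : UnitAddCircle) - ∫ y, G y‖ ≤ W * (2 * ‖G‖) :=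
        mul_le_mul (hw v) h2 (norm_nonneg _) hW
    _ = _ := by ring

/-- **All continuous functions on the circle from the characters.** -/
theorem circle_all {w : HeightOneSpectrum (𝓞 K) → ℂ} {W : ℝ} (hW : 0 ≤ W) (hw : ∀ v, ‖w v‖ ≤ W) (α : ℝ)
    (h : ∀ k : ℤ, k ≠ 0 → Tendsto (fun x : ℕ => (∑ v ∈ VF K x, w v * ee (nm v * (k * α))) /
      (((VF K x).card : ℝ) : ℂ)) atTop (𝓝 0)) (G : C(UnitAddCircle, ℂ)) :
    Tendsto (fun x : ℕ => LC w α G x / (((VF K x).card : ℝ) : ℂ)) atTop (𝓝 0) := by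
  classical
  set S : Submodule ℂ C(UnitAddCircle, ℂ) :=
    { carrier := {G | Tendsto (fun x : ℕ => LC w α G x / (((VF K x).card : ℝ) : ℂ)) atTop (𝓝 0)}
      add_mem' := by
        intro f f' hf hf'
        have h := Tendsto.add hf hf'
        rw [add_zero] at h
        refine h.congr fun x => ?_
        rw [LC_add, add_div]
      zero_mem' := by
        show Tendsto _ _ _
        have : ∀ x, LC w α 0 x = 0 := by
          intro x
          have h := LC_add w α 0 0 x
          rw [add_zero] at h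
          exact left_eq_add.1 h
        simp only [this, zero_div]
        exact tendsto_const_nhds
      smul_mem' := by
        intro c f hf
        have h := Tendsto.const_mul c hf
        rw [mul_zero] at h
        refine h.congr fun x => ?_
        rw [LC_smul, mul_div_assoc] } with hS
  have htop : S = ⊤ := by
    rw [eq_top_iff, ← span_fourier_closure_eq_top (T := 1)]
    refine Submodule.topologicalClosure_minimal _ ?_ ?_
    swap
    · refine isClosed_of_closure_subset fun f hf => ?_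
      refine closed_aux (LC w α) (fun x => ((VF K x).card : ℝ)) (LC_add w α)
        (show (0 : ℝ) < 2 * W + 1 by linarith)
        (fun f x => (norm_LC hw α f x).trans ?_) (fun x => Nat.cast_nonneg _) hf
      have h1 : 0 ≤ ‖f‖ := norm_nonneg _
      have h2 : (0 : ℝ) ≤ ((VF K x).card : ℝ) := Nat.cast_nonneg _
      have : 0 ≤ ‖f‖ * ((VF K x).card : ℝ) := mul_nonneg h1 h2
      nlinarith
    rw [Submodule.span_le]
    rintro _ ⟨k, rfl⟩
    show Tendsto (fun x : ℕ => LC w α (fourier k) x / (((VF K x).card : ℝ) : ℂ)) atTop (𝓝 0)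
    by_cases hk : k = 0
    · have h0 : ∀ x, LC w α (fourier k) x = 0 := by
        intro x
        unfold LC
        refine sum_eq_zero fun v _ => ?_
        rw [hk]
        have : ∫ y : UnitAddCircle, fourier 0 y = 1 := by
          simp only [fourier_zero]
          rw [integral_const, measureReal_def, UnitAddCircle.measure_univ]
          simp
        rw [this, fourier_zero, sub_self, mul_zero]
      simp only [h0, zero_div]
      exact tendsto_const_nhds
    · refine (h k hk).congr fun x => ?_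
      congr 1
      unfold LC
      refine sum_congr rfl fun v _ => ?_
      rw [integral_fourier hk, sub_zero]
      congr 1
      rw [fourier_coe_apply]
      unfold ee
      congr 1
      push_cast
      ring
  have : G ∈ S := by rw [htop]; exact Submodule.mem_top
  exact this

end Pool.Agent.H90.ST
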