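import Pool.Agent.H90.ST.Jor

/-! # The large values at one scale -/

set_option autoImplicit false

namespace Pool.Agent.H90.ST

open Finset Filter Topology Pool.Agent.Helper112 NumberField IsDedekindDomain
  Pool.Agent.H921R2.TatePole Pool.Agent.Q255.SG

theorem TT_primes (b : ℕ → ℂ) (hb : ∀ n, ¬ n.Prime → b n = 0) (x : ℕ) (α : ℝ) :
    TT x b α = ∑ p ∈ Nat.primesBelow (x + 1), b p * ee (p * α) := by
  unfold TT
  rw [Nat.primesBelow, sum_filter]
  have h1 : ∑ n ∈ range (x + 1), (if n.Prime then b n * ee (n * α) else 0) =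
      ∑ n ∈ Icc 1 x, (if n.Prime then b n * ee (n * α) else 0) := by
    apply (sum_subset _ _).symm
    · intro n hn
      rw [mem_Icc] at hn
      rw [mem_range]
      omega
    · intro n hn1 hn2
      rw [mem_range] at hn1
      rw [mem_Icc] at hn2
      have : n = 0 := by omega
      rw [this, if_neg Nat.not_prime_zero]
  rw [h1]
  apply sum_congr rfl
  intro n _
  split_ifs with h
  · rfl
  · rw [hb n h, zero_mul]

theorem scale {d : ℕ} (hd : 1 ≤ d) {ε : ℝ} (hε : 0 < ε) : ∃ B : ℕ, ∀ (K : Type) [Field K] [NumberField K],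
    Module.finrank ℚ K ≤ d → ∀ᶠ x : ℕ in atTop, ∀ φ : HeightOneSpectrum (𝓞 K) → ℂ, (∀ v, ‖φ v‖ ≤ 1) →
    ∃ S : Finset ℝ, S.card ≤ B ∧ ∀ α : ℝ, 0 ≤ α → α < 1 →
      ε * ((VF K (x + 1)).card : ℝ) ≤ ‖∑ v ∈ VF K (x + 1), φ v * ee (nm v * α)‖ →
      ∃ s ∈ S, |α - s| ≤ 1 / x := by
  classical
  have hd0 : (0 : ℝ) < d := by exact_mod_cast hd
  obtain ⟨B, hB⟩ := few_cells (show 0 < ε / (4 * d) by positivity)
  refine ⟨B, fun K _ _ hK => ?_⟩
  set d' : ℝ := ((Module.finrank ℚ K : ℕ) : ℝ) with hd'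
  have hd'0 : 0 < d' := by rw [hd']; exact_mod_cast Module.finrank_pos
  have hd'd : d' ≤ d := by rw [hd']; exact_mod_cast hK
  -- the number of primes
  have h1 : Tendsto (fun x : ℕ => ((Nat.primesBelow (x + 1)).card : ℝ) / ((VF K (x + 1)).card : ℝ)) atTop (𝓝 1) :=
    (VF_ratio_bd (K := K)).comp (tendsto_add_atTop_nat 1)
  have h2 : Tendsto (fun x : ℕ => ((Nat.primesBelow (x + 1)).card : ℝ) * Real.log ((x + 1 : ℕ) : ℝ) /
      ((x + 1 : ℕ) : ℝ)) atTop (𝓝 1) := card_log_tendsto.comp (tendsto_add_atTop_nat 1)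
  have h3 : Tendsto (fun x : ℕ => √((x + 1 : ℕ) : ℝ) / ((Nat.primesBelow (x + 1)).card : ℝ)) atTop (𝓝 0) :=
    sqrt_div_tendsto.comp (tendsto_add_atTop_nat 1)
  filter_upwards [h1.eventually (Ioo_mem_nhds (show (9 / 10 : ℝ) < 1 by norm_num) (show (1 : ℝ) < 11 / 10 by norm_num)),
    h2.eventually (lt_mem_nhds (show (9 / 10 : ℝ) < 1 by norm_num)),
    h3.eventually (gt_mem_nhds (show 0 < ε / (8 * d) by positivity)), eventually_ge_atTop 3]
    with x hx1 hx2 hx3 hx4 φ hφ
  have hx0 : (0 : ℝ) < x := by exact_mod_cast (by omega : 0 < x)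
  have hlx : 0 < Real.log x := Real.log_pos (by exact_mod_cast (by omega : 1 < x))
  set P : ℝ := ((Nat.primesBelow (x + 1)).card : ℝ) with hP
  set V : ℝ := ((VF K (x + 1)).card : ℝ) with hV
  have hP0 : 0 < P := by rw [hP]; exact_mod_cast card_pos_pb (by omega)
  have hV0 : 0 < V := by
    rcases (show 0 ≤ V from Nat.cast_nonneg _).eq_or_lt with h | h
    · rw [← h, div_zero] at hx1
      have := hx1.1
      norm_num at this
    · exact h
  have hVP : 9 / 11 * P ≤ V := by
    have := hx1.2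
    rw [div_lt_iff₀ hV0] at this
    linarith
  have hlx1 : Real.log x ≤ Real.log ((x + 1 : ℕ) : ℝ) := Real.log_le_log hx0 (by push_cast; linarith)
  have hPx : 9 / 10 * (x / Real.log x) ≤ 11 / 10 * P := by
    have hl0 : 0 < Real.log ((x + 1 : ℕ) : ℝ) := lt_of_lt_of_le hlx hlx1
    have hx10 : (0 : ℝ) < ((x + 1 : ℕ) : ℝ) := by positivity
    rw [lt_div_iff₀ hx10] at hx2
    -- log (x+1) ≤ 11/10 log x ... use log (x+1) ≤ log x + 1/x
    have k1 : Real.log ((x + 1 : ℕ) : ℝ) ≤ Real.log x + 1 / x := by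
      have : ((x + 1 : ℕ) : ℝ) = x * (1 + 1 / x) := by push_cast; field_simp
      rw [this, Real.log_mul hx0.ne' (by positivity)]
      have := Real.log_le_sub_one_of_pos (show (0 : ℝ) < 1 + 1 / x by positivity)
      linarith
    have k2 : P * (Real.log x + 1 / x) ≥ 9 / 10 * (x + 1) := by
      have : P * Real.log ((x + 1 : ℕ) : ℝ) ≤ P * (Real.log x + 1 / x) := mul_le_mul_of_nonneg_left k1 hP0.le
      push_cast at hx2
      push_cast at this
      linarith
    have k3 : P ≤ x := by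
      rw [hP]
      have : (Nat.primesBelow (x + 1)).card ≤ x := by
        have h5 : Nat.primesBelow (x + 1) ⊆ Icc 1 x := by
          intro p hp
          rw [Nat.mem_primesBelow] at hp
          rw [mem_Icc]
          exact ⟨hp.2.one_lt.le, by omega⟩
        have := card_le_card h5
        rwa [Nat.card_Icc, Nat.add_sub_cancel] at this
      exact_mod_cast this
    have k4 : P * (1 / x) ≤ 1 := by
      rw [mul_one_div, div_le_one hx0]; exact k3
    rw [← mul_div_assoc, div_le_iff₀ hlx]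
    rw [mul_add] at k2
    have k5 : (3 : ℝ) ≤ x := by exact_mod_cast hx4
    have k6 : 11 / 10 * P * Real.log x = 11 / 10 * (P * Real.log x) := by ring
    rw [k6]
    linarith
  have hPx' : 9 / 11 * (x / Real.log x) ≤ P := by linarith
  -- the coefficients
  set b : ℕ → ℂ := fun p => cp φ p / d' with hb
  have hPB := PB_cp (K := K) zero_le_one hφ
  have hb0 : ∀ p, ¬ p.Prime → b p = 0 := by
    intro p hp
    simp only [hb]
    rw [hPB.2 p hp, zero_div]
  have hb1 : ∀ p, ‖b p‖ ≤ 1 := by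
    intro p
    by_cases hp : p.Prime
    · simp only [hb]
      rw [norm_div, Complex.norm_real, Real.norm_of_nonneg hd'0.le, div_le_one hd'0]
      have := hPB.1 p hp
      rwa [one_mul] at this
    · rw [hb0 p hp]; simp
  refine ⟨(cells x b (ε / (4 * d))).image (fun j : ℕ => (j : ℝ) / x), card_image_le.trans (hB x (by omega) b hb0 hb1), ?_⟩
  intro α hα0 hα1 hlarge
  have hcell : ⌊α * x⌋₊ ∈ cells x b (ε / (4 * d)) := by
    unfold cells
    have hfl : (⌊α * x⌋₊ : ℝ) ≤ α * x := Nat.floor_le (by positivity)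
    have hfl2 : α * x < (⌊α * x⌋₊ : ℝ) + 1 := Nat.lt_floor_add_one _
    rw [mem_filter, mem_range]
    refine ⟨?_, α, ?_, ?_, ?_⟩
    · have : (⌊α * x⌋₊ : ℝ) < x := by nlinarith
      exact_mod_cast this
    · rw [div_le_iff₀ hx0]; exact hfl
    · rw [lt_div_iff₀ hx0]; exact hfl2
    · -- the main estimate
      have g1 := sum_VF_sub (K := K) zero_le_one hφ (fun i => ee (i * α)) (x := x + 1) (F := 1) zero_le_one
        (fun i _ => (ls_norm_ee _).le)
      have g2 : ε * V ≤ ‖∑ v ∈ VF K (x + 1), φ v * ee (nm v * α) -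
          ∑ p ∈ Nat.primesBelow (x + 1), cp φ p * ee (p * α)‖ +
          ‖∑ p ∈ Nat.primesBelow (x + 1), cp φ p * ee (p * α)‖ := by
        refine hlarge.trans ?_
        have := norm_add_le (∑ v ∈ VF K (x + 1), φ v * ee (nm v * α) -
          ∑ p ∈ Nat.primesBelow (x + 1), cp φ p * ee (p * α)) (∑ p ∈ Nat.primesBelow (x + 1), cp φ p * ee (p * α))
        rwa [sub_add_cancel] at this
      have g3 : ‖∑ p ∈ Nat.primesBelow (x + 1), cp φ p * ee (p * α)‖ = d' * ‖TT x b α‖ := by
        rw [TT_primes b hb0]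
        have : ∑ p ∈ Nat.primesBelow (x + 1), cp φ p * ee (p * α) =
            (d' : ℂ) * ∑ p ∈ Nat.primesBelow (x + 1), b p * ee (p * α) := by
          rw [mul_sum]
          apply sum_congr rfl
          intro p _
          simp only [hb]
          have : (d' : ℂ) ≠ 0 := by exact_mod_cast hd'0.ne'
          field_simp
        rw [this, norm_mul, Complex.norm_real, Real.norm_of_nonneg hd'0.le]
      rw [g3] at g2
      have g4 : (1 : ℝ) * 1 * (d' * √((x + 1 : ℕ) : ℝ)) ≤ ε / 8 * P := by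
        rw [div_lt_iff₀ hP0] at hx3
        calc (1 : ℝ) * 1 * (d' * √((x + 1 : ℕ) : ℝ)) = d' * √((x + 1 : ℕ) : ℝ) := by ring
          _ ≤ d * (ε / (8 * d) * P) := by
              apply mul_le_mul hd'd hx3.le (Real.sqrt_nonneg _) hd0.le
          _ = ε / 8 * P := by field_simp
      have g5 : ε * V ≤ ε / 8 * P + d' * ‖TT x b α‖ := by linarith
      have g6 : ε * (9 / 11 * P) ≤ ε * V := mul_le_mul_of_nonneg_left hVP hε.le
      have g7 : ε / 4 * (x / Real.log x) ≤ d' * ‖TT x b α‖ := by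
        have : ε * (9 / 11 * P) - ε / 8 * P = (61 / 88) * (ε * P) := by ring
        have g8 : ε * (9 / 11 * (x / Real.log x)) ≤ ε * P := mul_le_mul_of_nonneg_left hPx' hε.le
        have g9 : 0 < ε * (x / Real.log x) := by positivity
        nlinarith
      have g10 : d' * ‖TT x b α‖ ≤ d * ‖TT x b α‖ := mul_le_mul_of_nonneg_right hd'd (norm_nonneg _)
      have g11 : ε / (4 * d) * (x / Real.log x) = (ε / 4 * (x / Real.log x)) / d := by
        field_simp
      rw [g11, div_le_iff₀ hd0]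
      linarith
  refine ⟨_, mem_image_of_mem _ hcell, ?_⟩
  have hfl : (⌊α * x⌋₊ : ℝ) ≤ α * x := Nat.floor_le (by positivity)
  have hfl2 : α * x < (⌊α * x⌋₊ : ℝ) + 1 := Nat.lt_floor_add_one _
  have e1 : α - (⌊α * x⌋₊ : ℝ) / x = (α * x - ⌊α * x⌋₊) / x := by field_simp
  rw [e1, abs_of_nonneg (div_nonneg (by linarith) hx0.le)]
  exact div_le_div_of_nonneg_right (by linarith) hx0.le

end Pool.Agent.H90.ST
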