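import Pool.Agent.H90.ST.Dim
import Pool.Graph.R_pool_sql_team_seeded_3997aac3.Q282.ST.Cont

/-! # Rotations: the universal exceptional set and the sums over the primes of a number field -/

set_option autoImplicit false

namespace Pool.Agent.H90.ST

open Finset Filter Topology Pool.Agent.Helper112 NumberField IsDedekindDomain
  Pool.Agent.H921R2.TatePole Pool.Agent.Q255.SG Q282.ST Pool.Agent.W350.EdgeV
open scoped ENNReal

variable {K : Type} [Field K] [NumberField K] {n g : ℕ}

/-- The universal set for the frequencies themselves. -/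
def TR : Set ℝ := ⋃ x : Idx, badSet (coefM x)

theorem dimH_TR : dimH TR = 0 := by
  unfold TR
  rw [dimH_iUnion]
  simp only [dimH_badSet _ _ (norm_coefM _)]
  simp

/-- The real numbers with an integral multiple in `TR`. -/
def T0 : Set ℝ := ⋃ k : {k : ℤ // k ≠ 0}, (fun x : ℝ => (k.1 : ℝ)⁻¹ * x) '' TR

theorem dimH_T0 : dimH T0 = 0 := by
  apply le_antisymm _ bot_le
  unfold T0
  rw [dimH_iUnion]
  apply iSup_le
  intro k
  have h3 : LipschitzWith (Real.toNNReal |(k.1 : ℝ)⁻¹|) (fun x : ℝ => (k.1 : ℝ)⁻¹ * x) := by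
    apply LipschitzWith.of_dist_le_mul
    intro x y
    rw [Real.dist_eq, Real.dist_eq, ← mul_sub, abs_mul, Real.coe_toNNReal _ (abs_nonneg _)]
  exact (h3.dimH_image_le _).trans dimH_TR.le

theorem notMem_TR {α : ℝ} (hα : α ∉ T0) {k : ℤ} (hk : k ≠ 0) : (k : ℝ) * α ∉ TR := by
  intro h
  apply hα
  unfold T0
  rw [Set.mem_iUnion]
  refine ⟨⟨k, hk⟩, k * α, h, ?_⟩
  have : (k : ℝ) ≠ 0 := by exact_mod_cast hk
  field_simp

/-- the two ways of grouping agree at the prime numbers -/
theorem cp_eq_grp (z : HeightOneSpectrum (𝓞 K) → ℂ) {p : ℕ} (hp : p.Prime) :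
    cp z p = grp (N := (nm : HeightOneSpectrum (𝓞 K) → ℕ)) z p := by
  classical
  have h1 : grp (N := (nm : HeightOneSpectrum (𝓞 K) → ℕ)) z p =
      ∑ v ∈ (VF K (p + 1)).filter (fun v => nm v = p), z v := by
    unfold grp
    rw [← Finset.tsum_subtype]
    have : (nm : HeightOneSpectrum (𝓞 K) → ℕ) ⁻¹' {p} =
        (((VF K (p + 1)).filter (fun v => nm v = p) : Finset _) : Set (HeightOneSpectrum (𝓞 K))) := by
      ext v
      simp only [Set.mem_preimage, Set.mem_singleton_iff, coe_filter, Set.mem_ofPred_eq, mem_VF]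
      constructor
      · intro h; exact ⟨by omega, h⟩
      · intro h; exact h.2
    rw [this]
    rfl
  have hiff : ∀ v : HeightOneSpectrum (𝓞 K), nm v = p ↔ (below v = ⟨p, hp⟩ ∧ deg v = 1) := by
    intro v
    obtain ⟨h2, h3, _⟩ := nm_eq v
    constructor
    · intro h
      have h4 : (below v : ℕ) ∣ p := by
        conv_rhs => rw [← h, h2]
        exact dvd_pow_self _ h3.ne'
      have h5 : (below v : ℕ) = p := (Nat.prime_dvd_prime_iff_eq (below v).2 hp).1 h4
      refine ⟨Subtype.ext h5, ?_⟩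
      rw [h, h5] at h2
      have h6 : p ^ 1 = p ^ deg v := by rw [pow_one]; exact h2
      exact (Nat.pow_right_injective hp.two_le h6).symm
    · rintro ⟨h4, h5⟩
      rw [h2, h4, h5, pow_one]
  rw [h1]
  unfold cp
  rw [dif_pos hp]
  rw [← Finset.sum_filter]
  refine Finset.sum_bij (fun v _ => v.1) ?_ ?_ ?_ ?_
  · intro v hv
    rw [mem_filter] at hv
    rw [mem_filter, mem_VF]
    have := (hiff v.1).2 ⟨v.2, hv.2⟩
    exact ⟨by omega, this⟩
  · intro v _ w _ h
    exact Subtype.ext h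
  · intro v hv
    rw [mem_filter] at hv
    have := (hiff v).1 hv.2
    exact ⟨⟨v, this.1⟩, by rw [mem_filter]; exact ⟨mem_univ _, this.2⟩, rfl⟩
  · intro v _
    rfl

/-- the number of the primes of `K` with norm less than `x` is asymptotic to the number of the primes -/
theorem VF_ratio_bd : Tendsto (fun x : ℕ => ((Nat.primesBelow x).card : ℝ) / ((VF K x).card : ℝ)) atTop (𝓝 1) := by
  have h1 := (Complex.continuous_re.tendsto _).comp (card_ratio (K := K))
  rw [Complex.one_re] at h1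
  have h2 := h1.inv₀ one_ne_zero
  rw [inv_one] at h2
  refine h2.congr fun x => ?_
  simp only [Function.comp]
  rw [← Complex.ofReal_natCast, ← Complex.ofReal_natCast, ← Complex.ofReal_div, Complex.ofReal_re,
    inv_div]

/-- from the prime numbers to the primes of the number field -/
theorem lift {z : HeightOneSpectrum (𝓞 K) → ℂ} {B : ℝ} (hB0 : 0 ≤ B) (hz : ∀ v, ‖z v‖ ≤ B) {α : ℝ}
    (h2 : Tendsto (fun N : ℕ => (∑ p ∈ Nat.primesBelow N, cp z p * ee (p * α)) /
      ((Nat.primesBelow N).card : ℂ)) atTop (𝓝 0)) :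
    Tendsto (fun x : ℕ => (∑ v ∈ VF K x, z v * ee (nm v * α)) / (((VF K x).card : ℝ) : ℂ))
      atTop (𝓝 0) := by
  have h3 : Tendsto (fun N : ℕ => (∑ v ∈ VF K N, z v * ee (nm v * α) -
      ∑ p ∈ Nat.primesBelow N, cp z p * ee (p * α)) /
      ((Nat.primesBelow N).card : ℂ)) atTop (𝓝 0) := by
    rw [tendsto_zero_iff_norm_tendsto_zero]
    have h4 := sqrt_div_tendsto.const_mul (B * Module.finrank ℚ K : ℝ)
    rw [mul_zero] at h4
    refine squeeze_zero (fun x => norm_nonneg _) (fun N => ?_) h4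
    rw [norm_div, Complex.norm_natCast, ← mul_div_assoc]
    refine div_le_div_of_nonneg_right ?_ (Nat.cast_nonneg _)
    have := sum_VF_sub (K := K) hB0 hz (fun i => ee (i * α)) (x := N) (F := 1) zero_le_one
      (fun i _ => (ls_norm_ee _).le)
    calc _ ≤ B * 1 * (Module.finrank ℚ K * √N) := this
      _ = _ := by ring
  have h5 := h3.add h2
  rw [add_zero] at h5
  have h6 : Tendsto (fun N : ℕ => (((Nat.primesBelow N).card : ℝ) / ((VF K N).card : ℝ) : ℂ)) atTop (𝓝 1) := by
    have := (Complex.continuous_ofReal.tendsto 1).comp (VF_ratio_bd (K := K))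
    rw [Complex.ofReal_one] at this
    refine this.congr fun N => ?_
    simp only [Function.comp]
    push_cast
    rfl
  have h7 := h5.mul h6
  rw [zero_mul] at h7
  refine h7.congr' ?_
  filter_upwards [eventually_ge_atTop 3] with N hN
  have hc : ((Nat.primesBelow N).card : ℂ) ≠ 0 := by exact_mod_cast (card_pos_pb hN).ne'
  rw [← add_div, sub_add_cancel]
  rw [Complex.ofReal_natCast, Complex.ofReal_natCast, div_mul_div_comm,
    mul_comm _ (((Nat.primesBelow N).card : ℂ)), mul_div_mul_left _ _ hc]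

/-- **Convergence for the symmetrised monomials.** -/
theorem mono_mean {X : Set (MvPolynomial (Fin n) (𝓞 K))} (hg : 1 ≤ g)
    {β : HeightOneSpectrum (𝓞 K) → Fin (2 * g) → ℂ} {E : Finset ℕ} (q a : ℕ)
    (hE : ∀ v, (below v : ℕ) ∉ E → IsFrob X g v (β v)) (κ : Fin (2 * g) → ℤ)
    {α : ℝ} (hα : α ∉ TR) :
    Tendsto (fun x : ℕ => (∑ v ∈ VF K x, am β E q a κ v * ee (nm v * α)) / ((VF K x).card : ℂ))
      atTop (𝓝 0) := by
  classical
  unfold TR at hα
  rw [Set.mem_iUnion, not_exists] at hα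
  obtain ⟨m, f, hf⟩ := Algebra.FiniteType.iff_quotient_mvPolynomial''.1
    (inferInstance : Algebra.FiniteType ℤ (𝓞 K))
  have hf' : Function.Surjective (f : Pool.Agent.TH958.BV.PR m →+* 𝓞 K) := hf
  obtain ⟨M, hM⟩ := exists_nat_ge (((2 * g).factorial : ℝ) * Module.finrank ℚ K)
  set x : Idx := ⟨m, n, 2 * g, (RingHom.ker (f : Pool.Agent.TH958.BV.PR m →+* 𝓞 K),
    Ideal.comap (MvPolynomial.map (f : Pool.Agent.TH958.BV.PR m →+* 𝓞 K)) (Ideal.span X), g, M), (E, q, a), κ⟩ with hx
  have hcoef : ∀ p : ℕ, p.Prime → coefM x p = cp (am β E q a κ) p := by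
    intro p hp
    have h1 := grp_am hg (q := q) (a := a) hE κ (f : Pool.Agent.TH958.BV.PR m →+* 𝓞 K) hf' M p hp
    have h2 := norm_grp_am (q := q) (a := a) hE κ p hp
    rw [cp_eq_grp _ hp]
    unfold coefM
    rw [if_pos, h1]
    rw [← h1]
    exact h2.trans hM
  have h1 : Tendsto (fun N : ℕ => (∑ p ∈ Nat.primesBelow N, coefM x p * ee (p * α)) /
      ((Nat.primesBelow N).card : ℂ)) atTop (𝓝 0) := by
    by_contra h
    exact hα x h
  have h2 : Tendsto (fun N : ℕ => (∑ p ∈ Nat.primesBelow N, cp (am β E q a κ) p * ee (p * α)) /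
      ((Nat.primesBelow N).card : ℂ)) atTop (𝓝 0) := by
    refine h1.congr fun N => ?_
    congr 1
    apply sum_congr rfl
    intro p hp
    rw [hcoef p (Nat.prime_of_mem_primesBelow hp)]
  have h3 := lift (K := K) (Nat.cast_nonneg _) (norm_am (q := q) (a := a) hE κ) h2
  refine h3.congr fun N => ?_
  rw [Complex.ofReal_natCast]

end Pool.Agent.H90.ST
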